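import Pool.Agent.H39.PMD.Fld

set_option autoImplicit false

namespace Pool.Agent.H39.PMD

namespace Sys

variable {P : Type} [Finite P] (S : Sys P)

/-- homogeneous coordinates -/
abbrev W := S.KK × S.V

open Classical in
/-- the coordinate vector of a point -/
noncomputable def phi (p : P) : S.W :=
  if h : p ∈ S.H then (0, Classical.choose (exists_nz h)) else (1, S.vec ⟨p, h⟩)

variable {S}

theorem phi_H {p : P} (h : p ∈ S.H) : ∃ x ∈ S.VQ p h, x ≠ 0 ∧ S.phi p = (0, x) := by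
  refine ⟨Classical.choose (exists_nz h), (Classical.choose_spec (exists_nz h)).1,
    (Classical.choose_spec (exists_nz h)).2, ?_⟩
  unfold phi
  rw [dif_pos h]

theorem phi_A (a : Af S.H) : S.phi (a : P) = (1, S.vec a) := by
  unfold phi
  rw [dif_neg a.2]

omit [Finite P] in
theorem pl_sub_H {Q R U : P} (hQ : Q ∈ S.H) (hR : R ∈ S.H) (hU : U ∈ S.H) (hQR : Q ≠ R)
    (hn : U ∉ S.G.ln Q R) : S.G.pl Q R U ⊆ S.H := by
  intro s hs
  by_cases hsQ : s = Q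
  · rw [hsQ]; exact hQ
  have hRU : R ≠ U := (S.G.ne_of_not_mem hn).2.symm
  obtain ⟨t, ht1, ht2⟩ := S.A.meet' (S.G.pl_1 Q R U) hs (S.G.pl_2 Q R U) (S.G.pl_3 Q R U)
    (Ne.symm hsQ) hRU
  have htH : t ∈ S.H := S.Y.closed R U hR hU ht2
  have hQn : Q ∉ S.G.ln R U := S.G.ncol_rot hQR hn
  have htQ : Q ≠ t := by rintro rfl; exact hQn ht2
  apply S.Y.closed Q t hQ htH
  rw [S.G.ln_eq (S.G.ln_left _ _) ht1 htQ]
  exact S.G.ln_right _ _

theorem ln_of_add {Q R U : P} {hQ : Q ∈ S.H} {hR : R ∈ S.H} {hU : U ∈ S.H} (hQR : Q ≠ R)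
    {x y : S.V} (hx : x ∈ S.VQ Q hQ) (hy : y ∈ S.VQ R hR) (hxy : x + y ∈ S.VQ U hU)
    (h0 : x + y ≠ 0) : U ∈ S.G.ln Q R := by
  by_contra hn
  have h1 : (tr y S.O : P) ∈ S.G.ln (S.O : P) R := hy.2 S.O
  have h2 : (tr x (tr y S.O) : P) ∈ S.G.ln (tr y S.O : P) Q := hx.2 _
  have h3 : (tr (x + y) S.O : P) ∈ S.G.ln (S.O : P) U := hxy.2 S.O
  have h4 : tr (x + y) S.O ≠ S.O := fun h => h0 (tr_ext S.O h)
  have p1 : (tr y S.O : P) ∈ S.G.pl (S.O : P) Q R :=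
    S.G.pl_ln (S.G.pl_1 _ _ _) (S.G.pl_3 _ _ _) h1
  have p2 : (tr (x + y) S.O : P) ∈ S.G.pl (S.O : P) Q R := by
    rw [tr_add, Equiv.Perm.mul_apply]
    exact S.G.pl_ln p1 (S.G.pl_2 _ _ _) h2
  have p3 : U ∈ S.G.pl (S.O : P) Q R := by
    apply S.G.pl_ln (S.G.pl_1 _ _ _) p2
    rw [S.G.ln_eq (S.G.ln_left _ _) h3 (vne h4.symm)]
    exact S.G.ln_right _ _
  have p4 := S.G.pl_eq (S.G.pl_2 (S.O : P) Q R) (S.G.pl_3 _ _ _) p3 hQR hn
  have p5 : (S.O : P) ∈ S.G.pl Q R U := by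
    rw [p4]; exact S.G.pl_1 _ _ _
  exact S.O.2 (pl_sub_H hQ hR hU hQR hn p5)

theorem exists_add {Q R U : P} {hQ : Q ∈ S.H} {hR : R ∈ S.H} {hU : U ∈ S.H} (hQR : Q ≠ R)
    (hUl : U ∈ S.G.ln Q R) (hUR : U ≠ R) {x : S.V} (hx : x ∈ S.VQ Q hQ)
    (hx0 : x ≠ 0) : ∃ y ∈ S.VQ R hR, x + y ∈ S.VQ U hU ∧ x + y ≠ 0 := by
  have h1 : (tr x S.O : P) ∈ S.G.ln (S.O : P) Q := hx.2 S.O
  have h2 : tr x S.O ≠ S.O := fun h => hx0 (tr_ext S.O h)
  obtain ⟨a, ha⟩ : ∃ a, a = tr x S.O := ⟨_, rfl⟩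
  rw [← ha] at h1 h2
  have hvec : S.vec a = x := by rw [ha, vec_tr]
  have haR : (a : P) ≠ R := fun h => a.2 (h ▸ hR)
  have hOU : (S.O : P) ≠ U := fun h => S.O.2 (h ▸ hU)
  have p1 : (a : P) ∈ S.G.pl (S.O : P) Q R := S.G.pl_ln (S.G.pl_1 _ _ _) (S.G.pl_2 _ _ _) h1
  have p2 : U ∈ S.G.pl (S.O : P) Q R := S.G.pl_ln (S.G.pl_2 _ _ _) (S.G.pl_3 _ _ _) hUl
  obtain ⟨b, hb1, hb2⟩ := S.A.meet' p1 (S.G.pl_3 (S.O : P) Q R) (S.G.pl_1 (S.O : P) Q R) p2
    haR hOU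
  have hbH : b ∉ S.H := by
    intro hbH
    apply hUR
    rw [← S.Y.uniqH a.2 hb1 hbH (S.G.ln_right _ _) hR]
    exact (S.Y.uniqH S.O.2 hb2 hbH (S.G.ln_right _ _) hU).symm
  have hbO : b ≠ S.O := by
    intro h
    apply hQR
    have e1 : (S.O : P) ∈ S.G.ln (a : P) R := h ▸ hb1
    have e2 : S.G.ln (S.O : P) a = S.G.ln (a : P) R :=
      S.G.ln_eq e1 (S.G.ln_left _ _) (vne h2.symm)
    have e3 : S.G.ln (S.O : P) a = S.G.ln (S.O : P) Q :=
      S.G.ln_eq (S.G.ln_left _ _) h1 (vne h2.symm)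
    refine S.Y.uniqH S.O.2 (S.G.ln_right _ _) hQ ?_ hR
    rw [← e3, e2]
    exact S.G.ln_right _ _
  obtain ⟨b', hb'⟩ : ∃ b' : Af S.H, (b' : P) = b := ⟨⟨b, hbH⟩, rfl⟩
  rw [← hb'] at hb1 hb2 hbO
  refine ⟨S.vec b' - S.vec a, (mem_ln_iff hR).1 hb1, ?_, ?_⟩
  · have := (mem_ln_iff (a := S.O) hU).1 hb2
    rw [vec_O, sub_zero] at this
    rw [← hvec]
    have e : S.vec a + (S.vec b' - S.vec a) = S.vec b' := by abel
    rwa [e]
  · rw [← hvec]
    have e : S.vec a + (S.vec b' - S.vec a) = S.vec b' := by abel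
    rw [e]
    intro h
    rw [← vec_O] at h
    exact hbO (congrArg Subtype.val (vec_inj h))

theorem vsub_ne {p q : Af S.H} (h : p ≠ q) : S.vec q - S.vec p ≠ 0 := by
  intro h1
  exact h (vec_inj (sub_eq_zero.1 h1)).symm

theorem col_AA {p q : Af S.H} {r : P} (hpq : p ≠ q) :
    r ∈ S.G.ln p q ↔ ∃ α β : S.KK, S.phi r = α • S.phi p + β • S.phi q := by
  have hQH := S.Y.dir_mem (vne hpq)
  have hln := S.Y.ln_dir p.2 (vne hpq)
  obtain ⟨Q, hQ⟩ : ∃ Q, Q = S.Y.dir p q := ⟨_, rfl⟩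
  rw [← hQ] at hQH hln
  have hv1 : S.vec q - S.vec p ∈ S.VQ Q hQH := by
    rw [← mem_ln_iff, hln]; exact S.G.ln_right _ _
  have hv0 := vsub_ne hpq
  rw [phi_A, phi_A, ← hln]
  by_cases hr : r ∈ S.H
  · obtain ⟨x, hx, hx0, hphi⟩ := phi_H hr
    rw [hphi]
    constructor
    · intro h
      have hrQ : r = Q := S.Y.uniqH p.2 h hr (S.G.ln_right _ _) hQH
      subst hrQ
      obtain ⟨k, hk⟩ := one_dim hv1 hx hv0
      refine ⟨-k, k, ?_⟩
      ext
      · simp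
      · simp only [Prod.snd_add, Prod.smul_snd]
        rw [← hk, smul_sub, neg_smul]; abel
    · rintro ⟨α, β, h⟩
      have h1 := congrArg Prod.fst h
      have h2 := congrArg Prod.snd h
      simp only [Prod.fst_add, Prod.smul_fst, smul_eq_mul, mul_one, Prod.snd_add,
        Prod.smul_snd] at h1 h2
      have h3 : α = -β := by
        have : α + β = 0 := h1.symm
        exact eq_neg_of_add_eq_zero_left this
      have h4 : x = β • (S.vec q - S.vec p) := by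
        rw [h2, h3, smul_sub, neg_smul]; abel
      by_contra hn
      apply hx0
      have hrQ : Q ≠ r := by rintro rfl; exact hn (S.G.ln_right _ _)
      refine VQ_disj (hQ := hQH) hrQ ?_ hx
      rw [h4]
      exact smul_mem _ hv1
  · obtain ⟨r', hr'⟩ : ∃ r' : Af S.H, (r' : P) = r := ⟨⟨r, hr⟩, rfl⟩
    rw [← hr', phi_A, mem_ln_iff hQH]
    constructor
    · intro h
      obtain ⟨k, hk⟩ := one_dim hv1 h hv0
      refine ⟨1 - k, k, ?_⟩
      ext
      · simp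
      · simp only [Prod.snd_add, Prod.smul_snd]
        have : S.vec r' = k • (S.vec q - S.vec p) + S.vec p := by rw [hk]; abel
        rw [this, smul_sub, sub_smul, one_smul]; abel
    · rintro ⟨α, β, h⟩
      have h1 := congrArg Prod.fst h
      have h2 := congrArg Prod.snd h
      simp only [Prod.fst_add, Prod.smul_fst, smul_eq_mul, mul_one, Prod.snd_add,
        Prod.smul_snd] at h1 h2
      have h3 : α = 1 - β := by rw [h1]; ring
      have h4 : S.vec r' - S.vec p = β • (S.vec q - S.vec p) := by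
        rw [h2, h3, smul_sub, sub_smul, one_smul]; abel
      rw [h4]
      exact smul_mem _ hv1

theorem col_AH {p : Af S.H} {q r : P} (hq : q ∈ S.H) :
    r ∈ S.G.ln p q ↔ ∃ α β : S.KK, S.phi r = α • S.phi p + β • S.phi q := by
  obtain ⟨y, hy, hy0, hphiq⟩ := phi_H hq
  rw [phi_A, hphiq]
  by_cases hr : r ∈ S.H
  · obtain ⟨x, hx, hx0, hphi⟩ := phi_H hr
    constructor
    · intro h
      have hrQ : r = q := S.Y.uniqH p.2 h hr (S.G.ln_right _ _) hq
      subst hrQ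
      exact ⟨0, 1, by rw [hphiq]; simp⟩
    · rw [hphi]
      rintro ⟨α, β, h⟩
      have h1 := congrArg Prod.fst h
      have h2 := congrArg Prod.snd h
      simp only [Prod.fst_add, Prod.smul_fst, smul_eq_mul, mul_one, mul_zero, add_zero,
        Prod.snd_add, Prod.smul_snd] at h1 h2
      rw [← h1, zero_smul, zero_add] at h2
      by_contra hn
      apply hx0
      have hrQ : q ≠ r := by rintro rfl; exact hn (S.G.ln_right _ _)
      refine VQ_disj (hQ := hq) hrQ ?_ hx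
      rw [h2]
      exact smul_mem _ hy
  · obtain ⟨r', hr'⟩ : ∃ r' : Af S.H, (r' : P) = r := ⟨⟨r, hr⟩, rfl⟩
    rw [← hr', phi_A, mem_ln_iff hq]
    constructor
    · intro h
      obtain ⟨k, hk⟩ := one_dim hy h hy0
      refine ⟨1, k, ?_⟩
      ext
      · simp
      · simp only [Prod.snd_add, Prod.smul_snd]
        rw [hk, one_smul]; abel
    · rintro ⟨α, β, h⟩
      have h1 := congrArg Prod.fst h
      have h2 := congrArg Prod.snd h
      simp only [Prod.fst_add, Prod.smul_fst, smul_eq_mul, mul_one, mul_zero, add_zero,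
        Prod.snd_add, Prod.smul_snd] at h1 h2
      have h4 : S.vec r' - S.vec p = β • y := by
        rw [h2, ← h1, one_smul]; abel
      rw [h4]
      exact smul_mem _ hy

theorem col_HH {p q r : P} (hp : p ∈ S.H) (hq : q ∈ S.H) (hpq : p ≠ q) :
    r ∈ S.G.ln p q ↔ ∃ α β : S.KK, S.phi r = α • S.phi p + β • S.phi q := by
  obtain ⟨x, hx, hx0, hphip⟩ := phi_H hp
  obtain ⟨y, hy, hy0, hphiq⟩ := phi_H hq
  by_cases hr : r ∈ S.H
  swap
  · constructor
    · intro h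
      exact absurd (S.Y.closed p q hp hq h) hr
    · obtain ⟨r', hr'⟩ : ∃ r' : Af S.H, (r' : P) = r := ⟨⟨r, hr⟩, rfl⟩
      rw [hphip, hphiq, ← hr', phi_A]
      rintro ⟨α, β, h⟩
      have h1 := congrArg Prod.fst h
      simp at h1
  obtain ⟨z, hz, hz0, hphi⟩ := phi_H hr
  constructor
  · intro h
    by_cases hrq : r = q
    · exact ⟨0, 1, by rw [hrq]; simp⟩
    obtain ⟨w, hw, hxw, hxw0⟩ := exists_add (hQ := hp) (hR := hq) (hU := hr) hpq h hrq hx hx0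
    obtain ⟨m, hm⟩ := one_dim hy hw hy0
    obtain ⟨k, hk⟩ := one_dim hxw hz hxw0
    refine ⟨k, k * m, ?_⟩
    rw [hphi, hphip, hphiq]
    ext
    · simp
    · simp only [Prod.snd_add, Prod.smul_snd]
      rw [mul_smul, hm, ← smul_add, hk]
  · rw [hphi, hphip, hphiq]
    rintro ⟨α, β, h⟩
    have h2 := congrArg Prod.snd h
    simp only [Prod.snd_add, Prod.smul_snd] at h2
    rw [h2] at hz hz0
    exact ln_of_add hpq (smul_mem α hx) (smul_mem β hy) hz hz0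

theorem col_iff {p q r : P} (hpq : p ≠ q) :
    r ∈ S.G.ln p q ↔ ∃ α β : S.KK, S.phi r = α • S.phi p + β • S.phi q := by
  by_cases hp : p ∈ S.H
  · by_cases hq : q ∈ S.H
    · exact col_HH hp hq hpq
    · have := col_AH (p := ⟨q, hq⟩) (r := r) hp
      rw [S.G.ln_comm, this]
      constructor
      · rintro ⟨α, β, h⟩
        exact ⟨β, α, by rw [h, add_comm]⟩
      · rintro ⟨α, β, h⟩
        exact ⟨β, α, by rw [h, add_comm]⟩
  · by_cases hq : q ∈ S.H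
    · exact col_AH (p := ⟨p, hp⟩) (r := r) hq
    · exact col_AA (p := ⟨p, hp⟩) (q := ⟨q, hq⟩) (r := r) (fun h => hpq (congrArg Subtype.val h))

theorem phi_ne (p : P) : S.phi p ≠ 0 := by
  by_cases hp : p ∈ S.H
  · obtain ⟨x, hx, hx0, hphip⟩ := phi_H hp
    rw [hphip]
    intro h
    exact hx0 (congrArg Prod.snd h)
  · have := phi_A (S := S) ⟨p, hp⟩
    rw [this]
    intro h
    exact one_ne_zero (congrArg Prod.fst h)

theorem phi_surj (w : S.W) (hw : w ≠ 0) : ∃ p : P, ∃ c : S.KK, w = c • S.phi p := by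
  obtain ⟨s, x⟩ := w
  by_cases hs : s = 0
  · have hx : x ≠ 0 := by
      rintro rfl
      exact hw (by rw [hs]; rfl)
    obtain ⟨Q, hQ, hxQ⟩ := exists_VQ hx
    obtain ⟨z, hz, hz0, hphi⟩ := phi_H hQ
    obtain ⟨k, hk⟩ := one_dim hz hxQ hz0
    refine ⟨Q, k, ?_⟩
    rw [hphi]
    ext
    · simp [hs]
    · simp [hk]
  · refine ⟨tr (s⁻¹ • x) S.O, s, ?_⟩
    rw [phi_A, vec_tr]
    ext
    · simp
    · simp only [Prod.smul_snd]
      rw [smul_smul, mul_inv_cancel₀ hs, one_smul]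

theorem phi_inj {p q : P} {c : S.KK} (h : S.phi p = c • S.phi q) : p = q := by
  by_contra hne
  obtain ⟨s, hs⟩ := S.A.out q p p
  have hs' : s ∉ S.G.ln q p := fun h => hs (S.G.pl_ln (S.G.pl_1 _ _ _) (S.G.pl_2 _ _ _) h)
  have hqs : q ≠ s := (S.G.ne_of_not_mem hs').1.symm
  have h1 : p ∈ S.G.ln q s := (col_iff hqs).2 ⟨c, 0, by rw [h]; simp⟩
  apply hs'
  rw [S.G.ln_eq (S.G.ln_left q s) h1 (Ne.symm hne)]
  exact S.G.ln_right _ _

theorem pl_iff {a b c d : P} (hab : a ≠ b) (hc : c ∉ S.G.ln a b) :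
    d ∈ S.G.pl a b c ↔ ∃ α β γ : S.KK, S.phi d = α • S.phi a + β • S.phi b + γ • S.phi c := by
  have hbc : b ≠ c := (S.G.ne_of_not_mem hc).2.symm
  have habc : a ∉ S.G.ln b c := S.G.ncol_rot hab hc
  constructor
  · intro hd
    by_cases hda : d = a
    · exact ⟨1, 0, 0, by rw [hda]; simp⟩
    obtain ⟨t, ht1, ht2⟩ := S.A.meet' (S.G.pl_1 a b c) hd (S.G.pl_2 a b c) (S.G.pl_3 a b c)
      (Ne.symm hda) hbc
    have hat : a ≠ t := by rintro rfl; exact habc ht2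
    obtain ⟨β, γ, h1⟩ := (col_iff hbc).1 ht2
    have h2 : d ∈ S.G.ln a t := by
      rw [S.G.ln_eq (S.G.ln_left _ _) ht1 hat]; exact S.G.ln_right _ _
    obtain ⟨α, δ, h3⟩ := (col_iff hat).1 h2
    refine ⟨α, δ * β, δ * γ, ?_⟩
    rw [h3, h1, smul_add, smul_smul, smul_smul, add_assoc]
  · rintro ⟨α, β, γ, h⟩
    by_cases hw : β • S.phi b + γ • S.phi c = 0
    · have : S.phi d = α • S.phi a := by rw [h, add_assoc, hw, add_zero]
      rw [phi_inj this]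
      exact S.G.pl_1 _ _ _
    · obtain ⟨t, k, hk⟩ := phi_surj _ hw
      have hk0 : k ≠ 0 := by
        rintro rfl
        rw [zero_smul] at hk
        exact hw hk
      have ht : t ∈ S.G.ln b c := by
        refine (col_iff hbc).2 ⟨k⁻¹ * β, k⁻¹ * γ, ?_⟩
        rw [mul_smul, mul_smul, ← smul_add, hk, smul_smul, inv_mul_cancel₀ hk0, one_smul]
      have hat : a ≠ t := by rintro rfl; exact habc ht
      have hd : d ∈ S.G.ln a t := by
        refine (col_iff hat).2 ⟨α, k, ?_⟩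
        rw [h, add_assoc, hk]
      exact S.G.pl_ln (S.G.pl_1 _ _ _) (S.G.pl_ln (S.G.pl_2 _ _ _) (S.G.pl_3 _ _ _) ht) hd

end Sys

end Pool.Agent.H39.PMD
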