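import Pool.Agent.H39.PMD.Proj

set_option autoImplicit false

namespace Pool.Agent.H39.PMD

/-- affine points -/
abbrev Af {P : Type} (H : Set P) := {a : P // a ∉ H}

/-- a projective geometry of dimension at least 3 with a hyperplane -/
structure Sys (P : Type) where
  G : Geo P
  A : PGeo G
  H : Set P
  Y : Hyp G H

namespace Sys

variable {P : Type} (S : Sys P)

theorem vne {H : Set P} {a b : Af H} (h : a ≠ b) : (a : P) ≠ b := fun e => h (Subtype.ext e)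

theorem dr_same {a b c : Af S.H} (hab : a ≠ b) (hac : a ≠ c) (h : S.Y.dir a b = S.Y.dir a c) :
    (c : P) ∈ S.G.ln a b := by
  have h1 := S.Y.ln_dir a.2 (vne hab)
  rw [h, S.Y.ln_dir a.2 (vne hac)] at h1
  rw [← h1]
  exact S.G.ln_right _ _

theorem dr_of {a c : Af S.H} {b : P} (hac : a ≠ c) (h : (c : P) ∈ S.G.ln a b) :
    S.Y.dir a c = S.Y.dir a b := by
  apply S.Y.eq_dir a.2 _ (S.Y.dir_mem (vne hac))
  rw [← S.G.ln_eq (S.G.ln_left _ _) h (vne hac)]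
  exact S.Y.dir_ln (vne hac)

theorem dr_of' {a c : Af S.H} {b : P} (hb : b ∈ S.H) (hac : a ≠ c) (h : (c : P) ∈ S.G.ln a b) :
    S.Y.dir a c = b := by
  rw [S.dr_of hac h]
  exact (S.Y.eq_dir a.2 (S.G.ln_right _ _) hb).symm

/-- an affine point outside of a line -/
theorem exists_off {x : P} (y : P) (hx : x ∉ S.H) : ∃ e : Af S.H, (e : P) ∉ S.G.ln x y := by
  obtain ⟨e, he, he'⟩ := S.Y.exists_aff S.A (S.G.pl_1 x y y) hx
  exact ⟨⟨e, he⟩, fun h => he' (S.G.pl_ln (S.G.pl_1 _ _ _) (S.G.pl_2 _ _ _) h)⟩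

theorem exists_off' (x : P) {y : P} (hy : y ∉ S.H) : ∃ e : Af S.H, (e : P) ∉ S.G.ln x y := by
  rw [S.G.ln_comm]
  exact S.exists_off x hy

/-- the group of dilatations -/
def Dil : Subgroup (Equiv.Perm (Af S.H)) where
  carrier := {σ | ∀ a b : Af S.H, a ≠ b → S.Y.dir (σ a) (σ b) = S.Y.dir a b}
  mul_mem' := by
    intro σ τ hσ hτ a b hab
    rw [Equiv.Perm.mul_apply, Equiv.Perm.mul_apply, hσ _ _ (τ.injective.ne hab), hτ a b hab]
  one_mem' := fun a b _ => rfl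
  inv_mem' := by
    intro σ hσ a b hab
    have := hσ (σ⁻¹ a) (σ⁻¹ b) ((σ⁻¹).injective.ne hab)
    simpa using this.symm

theorem mem_dil {σ : Equiv.Perm (Af S.H)} :
    σ ∈ S.Dil ↔ ∀ a b : Af S.H, a ≠ b → S.Y.dir (σ a) (σ b) = S.Y.dir a b := Iff.rfl

theorem cdil [Finite P] {C : P} {a a' : Af S.H} (ha : AP S.G S.H C a a') :
    ∃ σ ∈ S.Dil, σ a = a' ∧ (∀ b : Af S.H, (b : P) ≠ C → (σ b : P) ∈ S.G.ln C b) ∧
      (∀ b : Af S.H, (b : P) = C → σ b = b) := by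
  classical
  obtain ⟨f, P1, P2, P3⟩ := S.Y.central S.A ha
  let s : Af S.H → Af S.H := fun b => if h : (b : P) = C then b else ⟨f b, (P1 b b.2 h).h3⟩
  have s1 : ∀ b : Af S.H, (b : P) = C → s b = b := fun b h => dif_pos h
  have s2 : ∀ b : Af S.H, (b : P) ≠ C → (s b : P) = f b := fun b h => by
    show ((if h : (b : P) = C then b else ⟨f b, (P1 b b.2 h).h3⟩ : Af S.H) : P) = f b
    rw [dif_neg h]
  have key : ∀ b c : Af S.H, b ≠ c → s b ≠ s c ∧ S.Y.dir (s b) (s c) = S.Y.dir b c := by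
    have key1 : ∀ b c : Af S.H, b ≠ c → (b : P) = C → s b ≠ s c ∧
        S.Y.dir (s b) (s c) = S.Y.dir b c := by
      intro b c hbc hb
      have hc : (c : P) ≠ C := by
        rw [← hb]; exact (vne hbc).symm
      have hAP := P1 c c.2 hc
      have hne : s b ≠ s c := by
        intro h
        have : (s b : P) = s c := by rw [h]
        rw [s1 b hb, s2 c hc, hb] at this
        exact hAP.h4 this.symm
      refine ⟨hne, ?_⟩
      rw [s1 b hb] at hne ⊢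
      apply S.dr_of hne
      rw [s2 c hc, hb]
      exact hAP.h5
    intro b c hbc
    by_cases hb : (b : P) = C
    · exact key1 b c hbc hb
    by_cases hc : (c : P) = C
    · obtain ⟨h1, h2⟩ := key1 c b hbc.symm hc
      refine ⟨h1.symm, ?_⟩
      rw [S.Y.dir_comm (s b).2 (vne h1.symm), h2, S.Y.dir_comm c.2 (vne hbc.symm)]
    have hAb := P1 b b.2 hb
    have hAc := P1 c c.2 hc
    by_cases hcb : (c : P) ∈ S.G.ln C b
    swap
    · have hne := hAb.ne hAc hcb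
      refine ⟨fun h => hne (by rw [← s2 b hb, ← s2 c hc, h]), ?_⟩
      rw [s2 b hb, s2 c hc]
      exact (S.Y.eq_dir hAb.h3 (P2 b c b.2 hb c.2 hc hcb) (S.Y.dir_mem (vne hbc))).symm
    · have hlnc : S.G.ln C c = S.G.ln C b := S.G.ln_eq (S.G.ln_left _ _) hcb (Ne.symm hc)
      obtain ⟨u, hu⟩ := S.exists_off' C b.2
      have huC : (u : P) ≠ C := (S.G.ne_of_not_mem hu).1
      have hbu : (b : P) ≠ u := (S.G.ne_of_not_mem hu).2.symm
      have hucc : (u : P) ∉ S.G.ln C c := by rw [hlnc]; exact hu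
      have hcu : (c : P) ≠ u := (S.G.ne_of_not_mem hucc).2.symm
      have e1 := P2 b u b.2 hb u.2 huC hu
      have e2 := P2 c u c.2 hc u.2 huC hucc
      have hne : f b ≠ f c := by
        intro h
        have e3 := S.Y.eq_dir hAb.h3 e1 (S.Y.dir_mem hbu)
        have e4 := S.Y.eq_dir hAc.h3 e2 (S.Y.dir_mem hcu)
        rw [← h] at e4
        have e5 : S.Y.dir b u = S.Y.dir c u := e3.trans e4.symm
        have e6 := S.Y.ln_dir' u.2 hbu
        rw [e5, S.Y.ln_dir' u.2 hcu] at e6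
        have e7 : S.G.ln (b : P) c = S.G.ln (c : P) u :=
          S.G.ln_eq (e6 ▸ S.G.ln_left _ _) (S.G.ln_left _ _) (vne hbc)
        have e8 : S.G.ln (b : P) c = S.G.ln C b :=
          S.G.ln_eq (S.G.ln_right _ _) hcb (vne hbc)
        apply hu
        rw [← e8, e7]
        exact S.G.ln_right _ _
      refine ⟨fun h => hne (by rw [← s2 b hb, ← s2 c hc, h]), ?_⟩
      rw [s2 b hb, s2 c hc]
      refine (S.Y.eq_dir hAb.h3 ?_ (S.Y.dir_mem (vne hbc))).symm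
      rw [S.G.ln_eq hAb.h5 (hlnc ▸ hAc.h5) hne, ← S.G.ln_eq (S.G.ln_right _ _) hcb (vne hbc)]
      exact S.Y.dir_ln (vne hbc)
  have sinj : Function.Injective s := by
    intro b c h
    by_contra hne
    exact (key b c hne).1 h
  have sbij : Function.Bijective s := Finite.injective_iff_bijective.1 sinj
  refine ⟨Equiv.ofBijective s sbij, fun b c hbc => (key b c hbc).2, ?_, ?_, ?_⟩
  · apply Subtype.ext
    show (s a : P) = a'
    rw [s2 a ha.h2, P3]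
  · intro b hb
    show (s b : P) ∈ _
    rw [s2 b hb]
    exact (P1 b b.2 hb).h5
  · intro b hb
    exact s1 b hb

theorem rigid {σ : Equiv.Perm (Af S.H)} (hσ : σ ∈ S.Dil) {a b : Af S.H} (hab : a ≠ b)
    (ha : σ a = a) (hb : σ b = b) : σ = 1 := by
  have key : ∀ a b : Af S.H, a ≠ b → σ a = a → σ b = b → ∀ c : Af S.H,
      (c : P) ∉ S.G.ln a b → σ c = c := by
    have key1 : ∀ a c : Af S.H, a ≠ c → σ a = a → (σ c : P) ∈ S.G.ln a c := by
      intro a c hac ha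
      have h1 := hσ a c hac
      have h2 : a ≠ σ c := by
        intro h
        rw [← ha] at h
        exact hac (σ.injective h)
      rw [ha] at h1
      exact S.dr_same hac h2 h1.symm
    intro a b hab ha hb c hc
    have hac : a ≠ c := by rintro rfl; exact hc (S.G.ln_left _ _)
    have hbc : b ≠ c := by rintro rfl; exact hc (S.G.ln_right _ _)
    have h1 := key1 a c hac ha
    have h2 := key1 b c hbc hb
    by_contra hne
    have e1 := S.G.ln_eq h1 (S.G.ln_right _ _) (vne hne)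
    have e2 := S.G.ln_eq h2 (S.G.ln_right _ _) (vne hne)
    apply hc
    have e3 : (b : P) ∈ S.G.ln (a : P) c := by
      rw [← e1, e2]; exact S.G.ln_left _ _
    rw [S.G.ln_eq (S.G.ln_left (a : P) c) e3 (vne hab)]
    exact S.G.ln_right _ _
  ext c
  by_cases hc : (c : P) ∈ S.G.ln a b
  · by_cases hca : c = a
    · rw [hca, ha]; rfl
    obtain ⟨e, he⟩ := S.exists_off (b : P) a.2
    have hea : a ≠ e := by rintro rfl; exact he (S.G.ln_left _ _)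
    have he2 : σ e = e := key a b hab ha hb e he
    have : σ c = c := by
      refine key a e hea ha he2 c ?_
      intro h
      apply he
      rw [← S.G.ln_eq (S.G.ln_left _ _) hc (vne (Ne.symm hca)),
        S.G.ln_eq (S.G.ln_left _ _) h (vne (Ne.symm hca))]
      exact S.G.ln_right _ _
    rw [this]; rfl
  · rw [key a b hab ha hb c hc]; rfl

/-- all traces of a fixed point free dilatation have the same direction -/
theorem trace {τ : Equiv.Perm (Af S.H)} (hτ : τ ∈ S.Dil) (hf : ∀ x, τ x ≠ x) (a b : Af S.H) :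
    S.Y.dir a (τ a) = S.Y.dir b (τ b) := by
  by_cases hab : a = b
  · rw [hab]
  have haa := (hf a).symm
  have hbb := (hf b).symm
  have hD := hτ a b hab
  have hτab : τ a ≠ τ b := τ.injective.ne hab
  by_cases hb : (b : P) ∈ S.G.ln a (τ a)
  · have h1 : S.Y.dir a b = S.Y.dir a (τ a) := S.dr_of hab hb
    -- everything is on the line `a, τ a`
    have h2 : (τ b : P) ∈ S.G.ln a (τ a) := by
      have h3 := S.Y.ln_dir (τ a).2 (vne hτab)
      have h4 : S.G.ln (τ a : P) (S.Y.dir (τ a) (τ b)) = S.G.ln a (τ a) := by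
        rw [hD, h1]
        exact S.Y.ln_dir' (τ a).2 (vne haa)
      rw [← h4, h3]
      exact S.G.ln_right _ _
    have h5 : S.G.ln (b : P) (τ b) = S.G.ln a (τ a) := S.G.ln_eq hb h2 (vne hbb)
    exact S.Y.uniqH a.2 (S.Y.dir_ln (vne haa)) (S.Y.dir_mem (vne haa))
      (h5 ▸ S.Y.dir_ln (vne hbb)) (S.Y.dir_mem (vne hbb))
  · have p1 : S.Y.dir a b ∈ S.G.pl a b (τ a) :=
      S.G.pl_ln (S.G.pl_1 _ _ _) (S.G.pl_2 _ _ _) (S.Y.dir_ln (vne hab))
    have p2 : (τ b : P) ∈ S.G.pl a b (τ a) := by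
      apply S.G.pl_ln (S.G.pl_3 _ _ _) p1
      rw [← hD, S.Y.ln_dir (τ a).2 (vne hτab)]
      exact S.G.ln_right _ _
    obtain ⟨x, hx1, hx2⟩ := S.A.meet' (S.G.pl_1 (a : P) b (τ a)) (S.G.pl_3 _ _ _)
      (S.G.pl_2 _ _ _) p2 (vne haa) (vne hbb)
    by_cases hxH : x ∈ S.H
    · rw [← S.Y.eq_dir a.2 hx1 hxH, ← S.Y.eq_dir b.2 hx2 hxH]
    · exfalso
      have key : ∀ c : Af S.H, x ∈ S.G.ln (c : P) (τ c) → (τ ⟨x, hxH⟩ : P) ∈ S.G.ln (c : P) (τ c) := by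
        intro c hc
        by_cases hcx : c = ⟨x, hxH⟩
        · rw [← hcx]; exact S.G.ln_right _ _
        have hcc := (hf c).symm
        have h1 := hτ c ⟨x, hxH⟩ hcx
        have h2 : τ c ≠ τ ⟨x, hxH⟩ := τ.injective.ne hcx
        have h3 : S.Y.dir c x = S.Y.dir c (τ c) := S.dr_of (c := ⟨x, hxH⟩) hcx hc
        have h4 := S.Y.ln_dir (τ c).2 (vne h2)
        rw [h1] at h4
        have h5 : S.G.ln (τ c : P) (S.Y.dir c x) = S.G.ln (c : P) (τ c) := by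
          rw [h3]
          exact S.Y.ln_dir' (τ c).2 (vne hcc)
        rw [← h5, h4]
        exact S.G.ln_right _ _
      have h1 := key a hx1
      have h2 := key b hx2
      have hxx : x ≠ τ ⟨x, hxH⟩ := fun h => hf ⟨x, hxH⟩ (Subtype.ext h.symm)
      apply hb
      rw [← S.G.ln_eq hx1 h1 hxx, S.G.ln_eq hx2 h2 hxx]
      exact S.G.ln_left _ _

/-- translations -/
def IsT (τ : Equiv.Perm (Af S.H)) : Prop := τ ∈ S.Dil ∧ (τ = 1 ∨ ∀ x, τ x ≠ x)

theorem IsT.inv {S : Sys P} {τ : Equiv.Perm (Af S.H)} (h : S.IsT τ) : S.IsT τ⁻¹ := by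
  refine ⟨S.Dil.inv_mem h.1, ?_⟩
  rcases h.2 with h | h
  · left; rw [h, inv_one]
  · right
    intro x hx
    apply h x
    conv_lhs => rw [← hx]
    simp

theorem IsT.eq_one {S : Sys P} {τ : Equiv.Perm (Af S.H)} (h : S.IsT τ) {a : Af S.H}
    (ha : τ a = a) : τ = 1 := by
  rcases h.2 with h | h
  · exact h
  · exact absurd ha (h a)

theorem IsT.uniq {S : Sys P} {τ τ' : Equiv.Perm (Af S.H)} (h : S.IsT τ) (h' : S.IsT τ')
    {a : Af S.H} (ha : τ a = τ' a) : τ = τ' := by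
  by_cases ha1 : τ a = a
  · rw [h.eq_one ha1, h'.eq_one (ha ▸ ha1)]
  have hf : ∀ x, τ x ≠ x := by
    rcases h.2 with h | h
    · rw [h] at ha1; exact absurd rfl ha1
    · exact h
  have hf' : ∀ x, τ' x ≠ x := by
    rcases h'.2 with h | h
    · rw [ha, h] at ha1; exact absurd rfl ha1
    · exact h
  obtain ⟨b, hb⟩ := S.exists_off (τ a : P) a.2
  have hab : a ≠ b := by rintro rfl; exact hb (S.G.ln_left _ _)
  have haa := (hf a).symm
  -- both images of `b` are on two lines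
  have k1 : ∀ σ : Equiv.Perm (Af S.H), S.IsT σ → (∀ x, σ x ≠ x) → σ a = τ a →
      (σ b : P) ∈ S.G.ln (b : P) (S.Y.dir a (τ a)) ∧
      (σ b : P) ∈ S.G.ln (τ a : P) (S.Y.dir a b) := by
    intro σ hσ hσf hσa
    constructor
    · rw [← hσa, S.trace hσ.1 hσf a b, S.Y.ln_dir b.2 (vne (hσf b).symm)]
      exact S.G.ln_right _ _
    · have h1 : σ a ≠ σ b := σ.injective.ne hab
      rw [← hσa, ← hσ.1 a b hab, S.Y.ln_dir (σ a).2 (vne h1)]
      exact S.G.ln_right _ _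
  obtain ⟨e1, e2⟩ := k1 τ h hf rfl
  obtain ⟨e3, e4⟩ := k1 τ' h' hf' ha.symm
  have hbb : τ b = τ' b := by
    by_contra hne
    have e5 := S.G.ln_eq e1 e3 (vne hne)
    have e6 := S.G.ln_eq e2 e4 (vne hne)
    apply hb
    have e7 : S.Y.dir a (τ a) = S.Y.dir a b := by
      refine S.Y.uniqH b.2 (S.G.ln_right _ _) (S.Y.dir_mem (vne haa)) ?_ (S.Y.dir_mem (vne hab))
      rw [← e5, e6]
      exact S.G.ln_right _ _
    exact S.dr_same haa hab e7
  have h1 : τ'⁻¹ * τ ∈ S.Dil := S.Dil.mul_mem (S.Dil.inv_mem h'.1) h.1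
  have h2 := S.rigid h1 hab (by simp [ha]) (by simp [hbb])
  have h3 : τ = τ' * (τ'⁻¹ * τ) := by group
  rw [h3, h2, mul_one]

theorem IsT.mul {S : Sys P} {τ τ' : Equiv.Perm (Af S.H)} (h : S.IsT τ) (h' : S.IsT τ') :
    S.IsT (τ * τ') := by
  refine ⟨S.Dil.mul_mem h.1 h'.1, ?_⟩
  by_cases hx : ∃ x, (τ * τ') x = x
  · obtain ⟨x, hx⟩ := hx
    left
    have h1 : τ' x = τ⁻¹ x := by
      rw [Equiv.Perm.mul_apply] at hx
      conv_rhs => rw [← hx]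
      simp
    rw [h'.uniq h.inv h1]
    simp
  · right
    push Not at hx
    exact hx

/-- the group of translations -/
def T : Subgroup (Equiv.Perm (Af S.H)) where
  carrier := {τ | S.IsT τ}
  mul_mem' := fun h h' => h.mul h'
  one_mem' := ⟨S.Dil.one_mem, Or.inl rfl⟩
  inv_mem' := fun h => h.inv

theorem mem_T {τ : Equiv.Perm (Af S.H)} : τ ∈ S.T ↔ S.IsT τ := Iff.rfl

theorem conj_T {σ τ : Equiv.Perm (Af S.H)} (hσ : σ ∈ S.Dil) (hτ : τ ∈ S.T) :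
    σ * τ * σ⁻¹ ∈ S.T := by
  refine ⟨S.Dil.mul_mem (S.Dil.mul_mem hσ hτ.1) (S.Dil.inv_mem hσ), ?_⟩
  rcases hτ.2 with h | h
  · left; rw [h]; simp
  · right
    intro x hx
    apply h (σ⁻¹ x)
    apply σ.injective
    rw [Equiv.Perm.mul_apply, Equiv.Perm.mul_apply] at hx
    rw [hx]
    simp

theorem exists_T [Finite P] (a a' : Af S.H) : ∃ τ ∈ S.T, τ a = a' := by
  by_cases haa : a = a'
  · exact ⟨1, S.T.one_mem, haa⟩
  obtain ⟨C, hC⟩ : ∃ C, C = S.Y.dir a a' := ⟨_, rfl⟩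
  have hCH : C ∈ S.H := by rw [hC]; exact S.Y.dir_mem (vne haa)
  have hneC : ∀ x : Af S.H, (x : P) ≠ C := fun x h => x.2 (h ▸ hCH)
  have hAP : AP S.G S.H C a a' := by
    refine ⟨a.2, hneC a, a'.2, hneC a', ?_⟩
    rw [S.G.ln_comm, hC, S.Y.ln_dir a.2 (vne haa)]
    exact S.G.ln_right _ _
  obtain ⟨σ, hσ, hσa, hσ1, -⟩ := S.cdil hAP
  refine ⟨σ, ⟨hσ, Or.inr ?_⟩, hσa⟩
  have key : ∀ x b : Af S.H, σ x ≠ x → σ b = b → (b : P) ∉ S.G.ln C x → False := by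
    intro x b hx hb hbx
    have hxb : x ≠ b := by rintro rfl; exact hx hb
    have h1 := hσ x b hxb
    rw [hb] at h1
    have hxb' : σ x ≠ b := by
      intro h
      rw [← hb] at h
      exact hxb (σ.injective h)
    have h2 := S.Y.ln_dir' b.2 (vne hxb)
    have h3 := S.Y.ln_dir' b.2 (vne hxb')
    rw [h1, h2] at h3
    have h4 : S.G.ln (x : P) (σ x) = S.G.ln (x : P) b :=
      S.G.ln_eq (S.G.ln_left _ _) (h3 ▸ S.G.ln_left _ _) (vne hx.symm)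
    have h5 : S.G.ln (x : P) (σ x) = S.G.ln C x :=
      S.G.ln_eq (S.G.ln_right _ _) (hσ1 x (hneC x)) (vne hx.symm)
    apply hbx
    rw [← h5, h4]
    exact S.G.ln_right _ _
  intro b hb
  have hσa' : σ a ≠ a := by rw [hσa]; exact fun h => haa h.symm
  by_cases hba : (b : P) ∈ S.G.ln C a
  swap
  · exact key a b hσa' hb hba
  obtain ⟨u, hu⟩ := S.exists_off' C a.2
  have hu2 : σ u ≠ u := fun h => key a u hσa' h hu
  refine key u b hu2 hb ?_
  intro h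
  apply hu
  rw [← S.G.ln_eq (S.G.ln_left _ _) hba (hneC b).symm,
    S.G.ln_eq (S.G.ln_left _ _) h (hneC b).symm]
  exact S.G.ln_right _ _

/-- the translations in direction `Q` -/
def TQ (Q : P) (hQ : Q ∈ S.H) : Subgroup (Equiv.Perm (Af S.H)) where
  carrier := {τ | S.IsT τ ∧ ∀ x : Af S.H, (τ x : P) ∈ S.G.ln x Q}
  mul_mem' := by
    rintro σ τ ⟨hσ, hσ'⟩ ⟨hτ, hτ'⟩
    refine ⟨hσ.mul hτ, fun x => ?_⟩
    rw [Equiv.Perm.mul_apply]
    have h1 := hσ' (τ x)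
    rwa [S.G.ln_eq (hτ' x) (S.G.ln_right _ _) (fun h => (τ x).2 (h ▸ hQ))] at h1
  one_mem' := ⟨⟨S.Dil.one_mem, Or.inl rfl⟩, fun x => S.G.ln_left _ _⟩
  inv_mem' := by
    rintro τ ⟨hτ, hτ'⟩
    refine ⟨hτ.inv, fun x => ?_⟩
    have h1 := hτ' (τ⁻¹ x)
    have h2 : τ (τ⁻¹ x) = x := by simp
    rw [h2] at h1
    rw [S.G.ln_eq h1 (S.G.ln_right _ _) (fun h => x.2 (h ▸ hQ))]
    exact S.G.ln_left _ _

variable {S}

theorem mem_TQ {Q : P} {hQ : Q ∈ S.H} {τ : Equiv.Perm (Af S.H)} :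
    τ ∈ S.TQ Q hQ ↔ S.IsT τ ∧ ∀ x : Af S.H, (τ x : P) ∈ S.G.ln x Q := Iff.rfl

theorem mem_TQ' {Q : P} {hQ : Q ∈ S.H} {τ : Equiv.Perm (Af S.H)} (hτ : S.IsT τ) (x : Af S.H)
    (hx : (τ x : P) ∈ S.G.ln x Q) : τ ∈ S.TQ Q hQ := by
  refine ⟨hτ, fun y => ?_⟩
  rcases hτ.2 with h | h
  · rw [h]; exact S.G.ln_left _ _
  · have h1 : S.Y.dir x (τ x) = Q := S.dr_of' hQ (h x).symm hx
    rw [S.trace hτ.1 h x y] at h1
    rw [← h1, S.Y.ln_dir y.2 (vne (h y).symm)]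
    exact S.G.ln_right _ _

theorem TQ_disj {Q R : P} {hQ : Q ∈ S.H} {hR : R ∈ S.H} (hQR : Q ≠ R)
    {τ : Equiv.Perm (Af S.H)} (h1 : τ ∈ S.TQ Q hQ) (h2 : τ ∈ S.TQ R hR) : τ = 1 := by
  rcases h1.1.2 with h | h
  · exact h
  by_contra hne
  obtain ⟨x, hx⟩ : ∃ x, τ x ≠ x := by
    by_contra hc
    push Not at hc
    exact hne (Equiv.ext hc)
  apply hQR
  rw [← S.dr_of' hQ hx.symm (h1.2 x), S.dr_of' hR hx.symm (h2.2 x)]

theorem exists_TQ {τ : Equiv.Perm (Af S.H)} (hτ : S.IsT τ) (hne : τ ≠ 1) :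
    ∃ Q, ∃ hQ : Q ∈ S.H, τ ∈ S.TQ Q hQ := by
  obtain ⟨x, hx⟩ : ∃ x, τ x ≠ x := by
    by_contra hc
    push Not at hc
    exact hne (Equiv.ext hc)
  refine ⟨S.Y.dir x (τ x), S.Y.dir_mem (vne hx.symm), mem_TQ' hτ x ?_⟩
  rw [S.Y.ln_dir x.2 (vne hx.symm)]
  exact S.G.ln_right _ _

theorem conj_TQ {Q : P} {hQ : Q ∈ S.H} {σ τ : Equiv.Perm (Af S.H)} (hσ : σ ∈ S.Dil)
    (hτ : τ ∈ S.TQ Q hQ) : σ * τ * σ⁻¹ ∈ S.TQ Q hQ := by
  have h1 : S.IsT (σ * τ * σ⁻¹) := S.conj_T hσ hτ.1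
  refine ⟨h1, fun x => ?_⟩
  rw [Equiv.Perm.mul_apply, Equiv.Perm.mul_apply]
  obtain ⟨y, hy⟩ : ∃ y, y = σ⁻¹ x := ⟨_, rfl⟩
  have hx : x = σ y := by rw [hy]; simp
  rw [← hy, hx]
  by_cases hyy : τ y = y
  · rw [hyy]; exact S.G.ln_left _ _
  have h2 : S.Y.dir y (τ y) = Q := S.dr_of' hQ (Ne.symm hyy) (hτ.2 y)
  have h3 := hσ y (τ y) (Ne.symm hyy)
  rw [← h2, ← h3, S.Y.ln_dir (σ y).2 (vne (σ.injective.ne (Ne.symm hyy)))]
  exact S.G.ln_right _ _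

theorem comm_ne {Q R : P} {hQ : Q ∈ S.H} {hR : R ∈ S.H} (hQR : Q ≠ R)
    {σ τ : Equiv.Perm (Af S.H)} (h1 : σ ∈ S.TQ Q hQ) (h2 : τ ∈ S.TQ R hR) :
    σ * τ = τ * σ := by
  have h3 : σ * τ * σ⁻¹ * τ⁻¹ ∈ S.TQ R hR :=
    (S.TQ R hR).mul_mem (conj_TQ h1.1.1 h2) ((S.TQ R hR).inv_mem h2)
  have h4 : σ * (τ * σ⁻¹ * τ⁻¹) ∈ S.TQ Q hQ :=
    (S.TQ Q hQ).mul_mem h1 (conj_TQ h2.1.1 ((S.TQ Q hQ).inv_mem h1))
  have h5 : σ * (τ * σ⁻¹ * τ⁻¹) = σ * τ * σ⁻¹ * τ⁻¹ := by group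
  rw [h5] at h4
  have h6 := TQ_disj hQR h4 h3
  have h7 : σ * τ = (σ * τ * σ⁻¹ * τ⁻¹) * (τ * σ) := by group
  rw [h7, h6, one_mul]

theorem comm_T [Finite P] {σ τ : Equiv.Perm (Af S.H)} (h1 : S.IsT σ) (h2 : S.IsT τ) :
    σ * τ = τ * σ := by
  by_cases hσ : σ = 1
  · rw [hσ, one_mul, mul_one]
  by_cases hτ : τ = 1
  · rw [hτ, one_mul, mul_one]
  obtain ⟨Q, hQ, h3⟩ := exists_TQ h1 hσ
  obtain ⟨R, hR, h4⟩ := exists_TQ h2 hτ
  by_cases hQR : Q = R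
  swap
  · exact comm_ne hQR h3 h4
  subst hQR
  -- a translation in a different direction
  obtain ⟨o, ho⟩ := S.Y.proper
  obtain ⟨e, he⟩ := S.exists_off Q ho
  have hoe : (⟨o, ho⟩ : Af S.H) ≠ e := by rintro rfl; exact he (S.G.ln_left _ _)
  obtain ⟨ρ, hρ, hρo⟩ := S.exists_T ⟨o, ho⟩ e
  have hρ1 : ρ ≠ 1 := by
    rintro rfl
    exact hoe hρo
  obtain ⟨W, hW, h5⟩ := exists_TQ hρ hρ1
  have hQW : Q ≠ W := by
    rintro rfl
    apply he
    rw [← hρo]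
    exact h5.2 ⟨o, ho⟩
  have h6 : σ * ρ = ρ * σ := comm_ne hQW h3 h5
  -- `τ ρ` has another direction
  have h7 : S.IsT (τ * ρ) := h2.mul hρ
  have h8 : τ * ρ ≠ 1 := by
    intro h
    apply hρ1
    refine TQ_disj (hQ := hQ) hQW ?_ h5
    have : ρ = τ⁻¹ * (τ * ρ) := by group
    rw [this, h, mul_one]
    exact (S.TQ Q hQ).inv_mem h4
  obtain ⟨U, hU, h9⟩ := exists_TQ h7 h8
  have hQU : Q ≠ U := by
    rintro rfl
    apply hρ1
    refine TQ_disj (hQ := hQ) hQW ?_ h5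
    have : ρ = τ⁻¹ * (τ * ρ) := by group
    rw [this]
    exact (S.TQ Q hQ).mul_mem ((S.TQ Q hQ).inv_mem h4) h9
  have h10 : σ * (τ * ρ) = (τ * ρ) * σ := comm_ne hQU h3 h9
  have h11 : σ * τ * ρ = τ * σ * ρ := by
    rw [mul_assoc, h10, mul_assoc, ← h6, mul_assoc]
  exact mul_right_cancel h11

end Sys

end Pool.Agent.H39.PMD
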