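import Pool.Agent.H39.PMD.Geo

set_option autoImplicit false

namespace Pool.Agent.H39.PMD

variable {α : Type} {M : Matroid α}

/-- the matroid is finite and simple -/
structure Simp (M : Matroid α) : Prop where
  fin : M.Finite
  e0 : M.IsFlat ∅
  e1 : ∀ e ∈ M.E, M.IsFlat {e}

namespace Simp

variable (S : Simp M)

include S

theorem ins {I : Set α} {a : α} (hI : M.Indep I) (ha : a ∈ M.E) (haI : a ∉ M.closure I) :
    M.Indep (insert a I) :=
  (hI.notMem_closure_iff ha).1 haI |>.1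

theorem ind1 {a : α} (ha : a ∈ M.E) : M.Indep {a} := by
  have := S.ins M.empty_indep ha (by rw [S.e0.closure]; simp)
  simpa using this

theorem ind2 {a b : α} (ha : a ∈ M.E) (hb : b ∈ M.E) (hab : a ≠ b) : M.Indep {a, b} := by
  apply S.ins (S.ind1 hb) ha
  rw [(S.e1 b hb).closure]
  simpa using hab

theorem ind3 {a b c : α} (ha : a ∈ M.E) (hb : b ∈ M.E) (hc : c ∈ M.E) (hab : a ≠ b)
    (hcab : c ∉ M.closure {a, b}) : M.Indep {a, b, c} := by
  have := S.ins (S.ind2 ha hb hab) hc hcab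
  have e : ({a, b, c} : Set α) = insert c {a, b} := by
    ext x; simp only [Set.mem_insert_iff, Set.mem_singleton_iff]; tauto
  rwa [e]

theorem ind4 {a b c d : α} (ha : a ∈ M.E) (hb : b ∈ M.E) (hc : c ∈ M.E) (hd : d ∈ M.E)
    (hab : a ≠ b) (hcab : c ∉ M.closure {a, b}) (hdabc : d ∉ M.closure {a, b, c}) :
    M.Indep {a, b, c, d} := by
  have := S.ins (S.ind3 ha hb hc hab hcab) hd hdabc
  have e : ({a, b, c, d} : Set α) = insert d {a, b, c} := by
    ext x; simp only [Set.mem_insert_iff, Set.mem_singleton_iff]; tauto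
  rwa [e]

theorem cl_eq {X Y : Set α} (hX : M.Indep X) (h : X ⊆ M.closure Y) (hYX : Y.encard ≤ X.encard) :
    M.closure X = M.closure Y := by
  have := S.fin
  have h2 := (M.isRkFinite_set X).closure_eq_closure_of_subset_of_eRk_ge_eRk h (by
    rw [M.eRk_closure_eq, hX.eRk_eq_encard]
    exact (M.eRk_le_encard Y).trans hYX)
  rw [h2, M.closure_closure]

theorem enc2 {a b : α} : ({a, b} : Set α).encard ≤ 2 := by
  refine (Set.encard_insert_le _ _).trans ?_
  rw [Set.encard_singleton]; norm_num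

theorem enc3 {a b c : α} : ({a, b, c} : Set α).encard ≤ 3 := by
  refine (Set.encard_insert_le _ _).trans ?_
  calc ({b, c} : Set α).encard + 1 ≤ 2 + 1 := by gcongr; exact S.enc2
    _ = 3 := by norm_num

/-- the geometry of a simple matroid -/
def geo : Geo (↥M.E) where
  ln a b := {x | (x : α) ∈ M.closure {(a : α), (b : α)}}
  pl a b c := {x | (x : α) ∈ M.closure {(a : α), (b : α), (c : α)}}
  ln_left a b := M.mem_closure_of_mem' (by simp) a.2
  ln_comm a b := by rw [Set.pair_comm]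
  ln_self a := by
    ext x
    simp only [Set.mem_ofPred_eq, Set.mem_singleton_iff, Set.pair_eq_singleton,
      (S.e1 a.1 a.2).closure]
    exact Subtype.ext_iff.symm
  ln_eq := by
    intro a b p q hp hq hpq
    have hpq' : (p : α) ≠ q := fun h => hpq (Subtype.ext h)
    have h1 := S.cl_eq (S.ind2 p.2 q.2 hpq') (Y := {(a : α), (b : α)}) (by
      intro x hx
      rcases hx with rfl | rfl
      · exact hp
      · exact hq) (by rw [Set.encard_pair hpq']; exact S.enc2)
    simp only [h1]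
  pl_1 a b c := M.mem_closure_of_mem' (by simp) a.2
  pl_2 a b c := M.mem_closure_of_mem' (by simp) b.2
  pl_3 a b c := M.mem_closure_of_mem' (by simp) c.2
  pl_ln := by
    intro a b c p q hp hq x hx
    have h1 : M.closure {(p : α), (q : α)} ⊆ M.closure {(a : α), (b : α), (c : α)} := by
      apply M.closure_subset_closure_of_subset_closure
      intro x hx
      rcases hx with rfl | rfl
      · exact hp
      · exact hq
    exact h1 hx
  pl_eq := by
    intro a b c p q r hp hq hr hpq hrpq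
    have hpq' : (p : α) ≠ q := fun h => hpq (Subtype.ext h)
    have hi := S.ind3 p.2 q.2 r.2 hpq' hrpq
    have h0 : (q : α) ≠ r := by
      intro h
      apply hrpq
      rw [Subtype.ext h]
      exact M.mem_closure_of_mem' (by simp) r.2
    have h0' : (p : α) ≠ r := by
      intro h
      apply hrpq
      rw [Subtype.ext h]
      exact M.mem_closure_of_mem' (by simp) r.2
    have h1 := S.cl_eq hi (Y := {(a : α), (b : α), (c : α)}) (by
      intro x hx
      rcases hx with rfl | rfl | rfl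
      · exact hp
      · exact hq
      · exact hr) (by
        have h3 : ({(p : α), (q : α), (r : α)} : Set α).encard = 3 := by
          rw [Set.encard_insert_of_notMem (by simp [hpq', h0']), Set.encard_pair h0]
          norm_num
        rw [h3]
        exact S.enc3)
    simp only [h1]

theorem mem_ln {a b x : ↥M.E} : x ∈ S.geo.ln a b ↔ (x : α) ∈ M.closure {(a : α), (b : α)} := Iff.rfl

theorem mem_pl {a b c x : ↥M.E} :
    x ∈ S.geo.pl a b c ↔ (x : α) ∈ M.closure {(a : α), (b : α), (c : α)} := Iff.rfl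

theorem val_ln (a b : ↥M.E) : Subtype.val '' (S.geo.ln a b) = M.closure {(a : α), (b : α)} := by
  ext x
  constructor
  · rintro ⟨y, hy, rfl⟩; exact hy
  · intro hx
    exact ⟨⟨x, M.closure_subset_ground _ hx⟩, hx, rfl⟩

theorem val_pl (a b c : ↥M.E) :
    Subtype.val '' (S.geo.pl a b c) = M.closure {(a : α), (b : α), (c : α)} := by
  ext x
  constructor
  · rintro ⟨y, hy, rfl⟩; exact hy
  · intro hx
    exact ⟨⟨x, M.closure_subset_ground _ hx⟩, hx, rfl⟩

theorem ncard_ln (a b : ↥M.E) : (S.geo.ln a b).ncard = (M.closure {(a : α), (b : α)}).ncard := by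
  rw [← S.val_ln, Set.ncard_image_of_injective _ Subtype.val_injective]

theorem ncard_pl (a b c : ↥M.E) :
    (S.geo.pl a b c).ncard = (M.closure {(a : α), (b : α), (c : α)}).ncard := by
  rw [← S.val_pl, Set.ncard_image_of_injective _ Subtype.val_injective]

theorem rk2 {a b : α} (ha : a ∈ M.E) (hb : b ∈ M.E) (hab : a ≠ b) :
    M.eRk (M.closure {a, b}) = 2 := by
  rw [M.eRk_closure_eq, (S.ind2 ha hb hab).eRk_eq_encard, Set.encard_pair hab]

theorem rk3 {a b c : α} (ha : a ∈ M.E) (hb : b ∈ M.E) (hc : c ∈ M.E) (hab : a ≠ b)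
    (hcab : c ∉ M.closure {a, b}) : M.eRk (M.closure {a, b, c}) = 3 := by
  have h0 : b ≠ c := by
    rintro rfl
    exact hcab (M.mem_closure_of_mem' (by simp) hb)
  have h0' : a ≠ c := by
    rintro rfl
    exact hcab (M.mem_closure_of_mem' (by simp) ha)
  rw [M.eRk_closure_eq, (S.ind3 ha hb hc hab hcab).eRk_eq_encard,
    Set.encard_insert_of_notMem (by simp [hab, h0']), Set.encard_pair h0]
  norm_num

/-- existence of points outside of a closure -/
theorem exists_out {X : Set α} (hX : M.eRk X < M.eRk M.E) : ∃ x ∈ M.E, x ∉ M.closure X := by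
  by_contra hc
  push Not at hc
  have : M.closure X = M.E := Set.Subset.antisymm (M.closure_subset_ground _) hc
  rw [← M.eRk_closure_eq X, this] at hX
  exact lt_irrefl _ hX

theorem exists4 (h4 : M.eRk M.E = 4) : ∃ a b c d : α, a ∈ M.E ∧ b ∈ M.E ∧ c ∈ M.E ∧ d ∈ M.E ∧
    a ≠ b ∧ c ∉ M.closure {a, b} ∧ d ∉ M.closure {a, b, c} := by
  obtain ⟨a, ha, -⟩ := S.exists_out (X := ∅) (by rw [M.eRk_empty, h4]; norm_num)
  obtain ⟨b, hb, hb'⟩ := S.exists_out (X := {a}) (by
    rw [(S.ind1 ha).eRk_eq_encard, h4, Set.encard_singleton]; norm_num)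
  rw [(S.e1 a ha).closure] at hb'
  have hab : a ≠ b := by rintro rfl; exact hb' rfl
  obtain ⟨c, hc, hc'⟩ := S.exists_out (X := {a, b}) (by
    rw [h4]
    refine lt_of_le_of_lt ((M.eRk_le_encard _).trans S.enc2) ?_
    norm_num)
  obtain ⟨d, hd, hd'⟩ := S.exists_out (X := {a, b, c}) (by
    rw [h4]
    refine lt_of_le_of_lt ((M.eRk_le_encard _).trans S.enc3) ?_
    norm_num)
  exact ⟨a, b, c, d, ha, hb, hc, hd, hab, hc', hd'⟩

theorem outside (h4 : M.eRk M.E = 4) (p q r : ↥M.E) : ∃ s, s ∉ S.geo.pl p q r := by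
  obtain ⟨d, hd, hd'⟩ := S.exists_out (X := {(p : α), (q : α), (r : α)}) (by
    rw [h4]
    refine lt_of_le_of_lt ((M.eRk_le_encard _).trans S.enc3) ?_
    norm_num)
  exact ⟨⟨d, hd⟩, hd'⟩

theorem counts [Fintype ↥M.E] (h4 : M.eRk M.E = 4)
    (hF : ∀ F₁ F₂ : Set α, M.IsFlat F₁ → M.IsFlat F₂ → M.eRk F₁ = M.eRk F₂ → F₁.ncard = F₂.ncard)
    (hH : ∀ H₁ H₂ : Set α, M.IsFlat H₁ → M.IsFlat H₂ → M.eRk H₁ = 3 → M.eRk H₂ = 3 →
      (H₁ ∩ H₂).Nonempty) : ∃ l k : ℕ, Counts S.geo l k := by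
  obtain ⟨a, b, c, d, ha, hb, hc, hd, hab, hcab, hdabc⟩ := S.exists4 h4
  refine ⟨(M.closure {a, b}).ncard, (M.closure {a, b, c}).ncard, ?_, ?_, ?_, ?_, ?_, ?_⟩
  · have h1 : ({a, b} : Set α) ⊆ M.closure {a, b} :=
      M.subset_closure _ (by
        intro x hx
        rcases hx with rfl | rfl
        · exact ha
        · exact hb)
    have h2 : (M.closure {a, b}).Finite := S.fin.ground_finite.subset (M.closure_subset_ground _)
    have h3 := Set.ncard_le_ncard h1 h2
    rwa [Set.ncard_pair hab] at h3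
  · intro p q hpq
    have hpq' : (p : α) ≠ q := fun h => hpq (Subtype.ext h)
    rw [S.ncard_ln]
    apply hF _ _ (M.isFlat_closure _) (M.isFlat_closure _)
    rw [S.rk2 p.2 q.2 hpq', S.rk2 ha hb hab]
  · rintro B ⟨p, q, r, hpq, hr, rfl⟩
    have hpq' : (p : α) ≠ q := fun h => hpq (Subtype.ext h)
    rw [S.ncard_pl]
    apply hF _ _ (M.isFlat_closure _) (M.isFlat_closure _)
    rw [S.rk3 p.2 q.2 r.2 hpq' hr, S.rk3 ha hb hc hab hcab]
  · rintro B B' ⟨p, q, r, hpq, hr, rfl⟩ ⟨p', q', r', hpq', hr', rfl⟩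
    have h1 : (p : α) ≠ q := fun h => hpq (Subtype.ext h)
    have h2 : (p' : α) ≠ q' := fun h => hpq' (Subtype.ext h)
    obtain ⟨x, hx, hx'⟩ := hH _ _ (M.isFlat_closure {(p : α), (q : α), (r : α)})
      (M.isFlat_closure {(p' : α), (q' : α), (r' : α)})
      (S.rk3 p.2 q.2 r.2 h1 hr) (S.rk3 p'.2 q'.2 r'.2 h2 hr')
    exact ⟨⟨x, M.closure_subset_ground _ hx⟩, hx, hx'⟩
  · rintro B ⟨p, q, r, hpq, hr, rfl⟩
    exact S.outside h4 p q r
  · refine ⟨S.geo.pl ⟨a, ha⟩ ⟨b, hb⟩ ⟨c, hc⟩, ⟨a, ha⟩, ⟨b, hb⟩, ⟨c, hc⟩, ?_, hcab, rfl⟩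
    intro h
    exact hab (Subtype.ext_iff.1 h)

end Simp

end Pool.Agent.H39.PMD
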