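import Mathlib

set_option autoImplicit false

namespace Pool.Agent.H39.PMD

/-- an abstract space of points, lines and planes -/
structure Geo (P : Type) where
  ln : P → P → Set P
  pl : P → P → P → Set P
  ln_left : ∀ a b, a ∈ ln a b
  ln_comm : ∀ a b, ln a b = ln b a
  ln_self : ∀ a, ln a a = {a}
  ln_eq : ∀ {a b p q}, p ∈ ln a b → q ∈ ln a b → p ≠ q → ln p q = ln a b
  pl_1 : ∀ a b c, a ∈ pl a b c
  pl_2 : ∀ a b c, b ∈ pl a b c
  pl_3 : ∀ a b c, c ∈ pl a b c
  pl_ln : ∀ {a b c p q}, p ∈ pl a b c → q ∈ pl a b c → ln p q ⊆ pl a b c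
  pl_eq : ∀ {a b c p q r}, p ∈ pl a b c → q ∈ pl a b c → r ∈ pl a b c → p ≠ q → r ∉ ln p q →
    pl p q r = pl a b c

namespace Geo

variable {P : Type} (G : Geo P)

theorem ln_right (a b : P) : b ∈ G.ln a b := by rw [G.ln_comm]; exact G.ln_left b a

/-- `IsPl B`: `B` is a plane -/
def IsPl (B : Set P) : Prop := ∃ a b c, a ≠ b ∧ c ∉ G.ln a b ∧ B = G.pl a b c

theorem IsPl.ln_sub {G : Geo P} {B : Set P} (hB : G.IsPl B) {p q : P} (hp : p ∈ B) (hq : q ∈ B) :
    G.ln p q ⊆ B := by
  obtain ⟨a, b, c, -, -, rfl⟩ := hB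
  exact G.pl_ln hp hq

theorem IsPl.eq {G : Geo P} {B : Set P} (hB : G.IsPl B) {p q r : P} (hp : p ∈ B) (hq : q ∈ B)
    (hr : r ∈ B) (hpq : p ≠ q) (hrpq : r ∉ G.ln p q) : G.pl p q r = B := by
  obtain ⟨a, b, c, -, -, rfl⟩ := hB
  exact G.pl_eq hp hq hr hpq hrpq

theorem isPl {a b c : P} (hab : a ≠ b) (hc : c ∉ G.ln a b) : G.IsPl (G.pl a b c) :=
  ⟨a, b, c, hab, hc, rfl⟩

theorem ne_of_not_mem {a b c : P} (hc : c ∉ G.ln a b) : c ≠ a ∧ c ≠ b := by
  constructor
  · rintro rfl; exact hc (G.ln_left _ _)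
  · rintro rfl; exact hc (G.ln_right _ _)

/-- non-collinearity is symmetric -/
theorem ncol_swap {a b c : P} (hab : a ≠ b) (hc : c ∉ G.ln a b) : b ∉ G.ln a c := by
  intro hb
  apply hc
  rw [G.ln_eq (G.ln_left a c) hb hab]
  exact G.ln_right _ _

theorem ncol_rot {a b c : P} (hab : a ≠ b) (hc : c ∉ G.ln a b) : a ∉ G.ln b c := by
  rw [G.ln_comm] at hc
  exact G.ncol_swap hab.symm hc

end Geo

open Classical in
/-- number version of the counting relations -/
structure Counts {P : Type} [Fintype P] (G : Geo P) (l k : ℕ) : Prop where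
  hl : 2 ≤ l
  line : ∀ a b, a ≠ b → (G.ln a b).ncard = l
  plane : ∀ B, G.IsPl B → B.ncard = k
  meet : ∀ B B', G.IsPl B → G.IsPl B' → (B ∩ B').Nonempty
  out : ∀ B, G.IsPl B → ∃ x, x ∉ B
  ex : ∃ B, G.IsPl B

namespace Counts

variable {P : Type} [Fintype P] {G : Geo P} {l k : ℕ} (C : Counts G l k)

open Classical in
/-- the finset of planes -/
noncomputable def planes (_ : Counts G l k) : Finset (Set P) := Finset.univ.filter (fun B => G.IsPl B)

open Classical in
theorem mem_planes {B : Set P} : B ∈ C.planes ↔ G.IsPl B := by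
  unfold planes; simp

/-- indicator -/
noncomputable def chi (B : Set P) (x : P) : ℤ := by
  classical exact if x ∈ B then 1 else 0

omit [Fintype P] in
theorem chi_sq (B : Set P) (x : P) : chi B x * chi B x = chi B x := by
  unfold chi; split_ifs <;> simp

theorem sum_chi (B : Set P) : ∑ x, chi B x = (B.ncard : ℤ) := by
  classical
  unfold chi
  rw [Finset.sum_ite]
  simp only [Finset.sum_const_zero, add_zero, Finset.sum_const, nsmul_eq_mul, mul_one]
  rw [Set.ncard_eq_toFinset_card']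
  congr 1
  congr 1
  ext x; simp

theorem sum_chi_inter (B B' : Set P) : ∑ x, chi B x * chi B' x = ((B ∩ B').ncard : ℤ) := by
  rw [← sum_chi]
  apply Finset.sum_congr rfl
  intro x _
  unfold chi
  by_cases h : x ∈ B <;> by_cases h' : x ∈ B' <;> simp [h, h']

include C

theorem lt : l < k := by
  obtain ⟨B, hB⟩ := C.ex
  obtain ⟨a, b, c, hab, hc, rfl⟩ := hB
  rw [← C.line a b hab, ← C.plane _ ⟨a, b, c, hab, hc, rfl⟩]
  apply Set.ncard_lt_ncard _ (Set.toFinite _)
  rw [Set.ssubset_iff_of_subset (G.pl_ln (G.pl_1 _ _ _) (G.pl_2 _ _ _))]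
  exact ⟨c, G.pl_3 _ _ _, hc⟩

theorem ksub {B : Set P} (hB : G.IsPl B) {a b : P} (hab : a ≠ b) (ha : a ∈ B) (hb : b ∈ B) :
    (B \ G.ln a b).ncard = k - l := by
  rw [Set.ncard_sdiff (hB.ln_sub ha hb) (Set.toFinite _), C.plane B hB, C.line a b hab]

open Classical in
/-- (1): the number of planes through two points -/
theorem lam_count {a b : P} (hab : a ≠ b) :
    ((C.planes.filter (fun B => a ∈ B ∧ b ∈ B)).card : ℤ) * ((k : ℤ) - l) =
      (Fintype.card P : ℤ) - l := by
  have h1 : ((Finset.univ : Finset P).filter (fun x => x ∉ G.ln a b)).card =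
      ∑ B ∈ C.planes.filter (fun B => a ∈ B ∧ b ∈ B),
        (((Finset.univ : Finset P).filter (fun x => x ∉ G.ln a b)).filter
          (fun x => G.pl a b x = B)).card := by
    apply Finset.card_eq_sum_card_fiberwise
    intro x hx
    simp only [Finset.coe_filter, Finset.mem_univ, true_and, Set.mem_ofPred_eq] at hx
    simp only [Finset.coe_filter, Set.mem_ofPred_eq, C.mem_planes]
    exact ⟨G.isPl hab hx, G.pl_1 _ _ _, G.pl_2 _ _ _⟩
  have h2 : ∀ B ∈ C.planes.filter (fun B => a ∈ B ∧ b ∈ B),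
      (((Finset.univ : Finset P).filter (fun x => x ∉ G.ln a b)).filter
          (fun x => G.pl a b x = B)).card = k - l := by
    intro B hB
    rw [Finset.mem_filter, C.mem_planes] at hB
    obtain ⟨hB, ha, hb⟩ := hB
    rw [← C.ksub hB hab ha hb, Set.ncard_eq_toFinset_card']
    congr 1
    ext x
    simp only [Finset.mem_filter, Finset.mem_univ, true_and, Set.mem_toFinset, Set.mem_sdiff]
    constructor
    · rintro ⟨hx, rfl⟩
      exact ⟨G.pl_3 _ _ _, hx⟩
    · rintro ⟨hx, hx'⟩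
      exact ⟨hx', hB.eq ha hb hx hab hx'⟩
  rw [Finset.sum_congr rfl h2, Finset.sum_const, smul_eq_mul] at h1
  have h3 : ((Finset.univ : Finset P).filter (fun x => x ∉ G.ln a b)).card =
      Fintype.card P - l := by
    rw [Finset.filter_not, Finset.card_sdiff_of_subset (Finset.filter_subset _ _), Finset.card_univ,
      ← C.line a b hab, Set.ncard_eq_toFinset_card']
    congr 2
    ext x; simp
  have hlv : l ≤ Fintype.card P := by
    rw [← C.line a b hab, ← Nat.card_eq_fintype_card, ← Set.ncard_univ]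
    exact Set.ncard_le_ncard (Set.subset_univ _) (Set.toFinite _)
  rw [h3] at h1
  have h4 := C.lt
  zify [hlv, h4.le] at h1
  linarith

open Classical in
theorem sum_chi_pair (a b : P) : ∑ B ∈ C.planes, chi B a * chi B b =
    ((C.planes.filter (fun B => a ∈ B ∧ b ∈ B)).card : ℤ) := by
  rw [Finset.card_filter]
  push_cast
  apply Finset.sum_congr rfl
  intro B _
  unfold chi
  by_cases h : a ∈ B <;> by_cases h' : b ∈ B <;> simp [h, h']

theorem exists_lam : ∃ lam : ℤ, lam * ((k : ℤ) - l) = (Fintype.card P : ℤ) - l ∧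
    ∀ a b, a ≠ b → ∑ B ∈ C.planes, chi B a * chi B b = lam := by
  obtain ⟨B, a, b, c, hab, hc, hB⟩ := C.ex
  refine ⟨∑ B ∈ C.planes, chi B a * chi B b, ?_, ?_⟩
  · rw [C.sum_chi_pair, C.lam_count hab]
  · intro a' b' hab'
    have h1 := C.lam_count hab
    have h2 := C.lam_count hab'
    rw [← C.sum_chi_pair] at h1 h2
    have hne : (k : ℤ) - l ≠ 0 := by
      have := C.lt
      omega
    exact mul_right_cancel₀ hne (h2.trans h1.symm)

theorem sum_chi_plane {B : Set P} (hB : B ∈ C.planes) : ∑ x, chi B x = (k : ℤ) := by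
  rw [sum_chi, C.plane B (C.mem_planes.1 hB)]

theorem rep {lam : ℤ} (hlam : ∀ a b, a ≠ b → ∑ B ∈ C.planes, chi B a * chi B b = lam) (x : P) :
    (∑ B ∈ C.planes, chi B x) * ((k : ℤ) - 1) = lam * ((Fintype.card P : ℤ) - 1) := by
  classical
  have h1 : ∑ y, ∑ B ∈ C.planes, chi B x * chi B y = (∑ B ∈ C.planes, chi B x) * k := by
    rw [Finset.sum_comm, Finset.sum_mul]
    apply Finset.sum_congr rfl
    intro B hB
    rw [← Finset.mul_sum, C.sum_chi_plane hB]
  have h2 : ∑ y, ∑ B ∈ C.planes, chi B x * chi B y =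
      (∑ B ∈ C.planes, chi B x) + lam * ((Fintype.card P : ℤ) - 1) := by
    rw [← Finset.add_sum_erase _ _ (Finset.mem_univ x)]
    congr 1
    · apply Finset.sum_congr rfl
      intro B _
      exact chi_sq B x
    · rw [Finset.sum_congr rfl (fun y hy => hlam x y (Finset.ne_of_mem_erase hy).symm)]
      rw [Finset.sum_const, Finset.card_erase_of_mem (Finset.mem_univ x), Finset.card_univ,
        nsmul_eq_mul, mul_comm]
      congr 1
      have : 0 < Fintype.card P := Fintype.card_pos_iff.2 ⟨x⟩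
      push_cast [Nat.cast_sub (show 1 ≤ Fintype.card P from this)]
      ring
  linarith

theorem main_counts : ∃ lam r b : ℤ, lam * ((k : ℤ) - l) = (Fintype.card P : ℤ) - l ∧
    r * ((k : ℤ) - 1) = lam * ((Fintype.card P : ℤ) - 1) ∧
    b * k = (Fintype.card P : ℤ) * r ∧
    (k : ℤ) * (k - 1) * (lam - 1) = l * (k * (r - 1) - (b - 1)) := by
  classical
  obtain ⟨lam, h1, hlam⟩ := C.exists_lam
  obtain ⟨B0, hB0⟩ := C.ex
  obtain ⟨a0, b0, c0, hab0, hc0, hB0e⟩ := id hB0
  have hk1 : (k : ℤ) - 1 ≠ 0 := by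
    have := C.lt
    have := C.hl
    omega
  obtain ⟨r, hr⟩ : ∃ r, r = ∑ B ∈ C.planes, chi B a0 := ⟨_, rfl⟩
  have hrep : ∀ x, ∑ B ∈ C.planes, chi B x = r := by
    intro x
    have h2 := C.rep hlam x
    have h3 := C.rep hlam a0
    rw [← hr] at h3
    exact mul_right_cancel₀ hk1 (h2.trans h3.symm)
  refine ⟨lam, r, (C.planes.card : ℤ), h1, ?_, ?_, ?_⟩
  · have := C.rep hlam a0
    rwa [← hr] at this
  · have h2 : ∑ x, ∑ B ∈ C.planes, chi B x = (Fintype.card P : ℤ) * r := by
      rw [Finset.sum_congr rfl (fun x _ => hrep x), Finset.sum_const, Finset.card_univ,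
        nsmul_eq_mul]
    rw [← h2, Finset.sum_comm, Finset.sum_congr rfl (fun B hB => C.sum_chi_plane hB),
      Finset.sum_const, nsmul_eq_mul]
  · have hB0m : B0 ∈ C.planes := C.mem_planes.2 hB0
    have S1 : ∑ B ∈ C.planes, ((B0 ∩ B).ncard : ℤ) = k * r := by
      have : ∀ B ∈ C.planes, ((B0 ∩ B).ncard : ℤ) = ∑ x, chi B0 x * chi B x := by
        intro B _
        rw [sum_chi_inter]
      rw [Finset.sum_congr rfl this, Finset.sum_comm]
      have h2 : ∀ x ∈ (Finset.univ : Finset P), ∑ B ∈ C.planes, chi B0 x * chi B x =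
          chi B0 x * r := by
        intro x _
        rw [← Finset.mul_sum, hrep]
      rw [Finset.sum_congr rfl h2, ← Finset.sum_mul, C.sum_chi_plane hB0m]
    have S2 : ∑ B ∈ C.planes, ((B0 ∩ B).ncard : ℤ) * ((B0 ∩ B).ncard : ℤ) =
        k * (k * lam) + k * (r - lam) := by
      have : ∀ B ∈ C.planes, ((B0 ∩ B).ncard : ℤ) * ((B0 ∩ B).ncard : ℤ) =
          ∑ x, ∑ y, chi B0 x * chi B0 y * (chi B x * chi B y) := by
        intro B _
        rw [← sum_chi_inter, Finset.sum_mul_sum]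
        apply Finset.sum_congr rfl
        intro x _
        apply Finset.sum_congr rfl
        intro y _
        ring
      rw [Finset.sum_congr rfl this, Finset.sum_comm]
      have h2 : ∀ x ∈ (Finset.univ : Finset P), ∑ B ∈ C.planes,
          ∑ y, chi B0 x * chi B0 y * (chi B x * chi B y) =
          chi B0 x * (k * lam) + chi B0 x * (r - lam) := by
        intro x _
        rw [Finset.sum_comm]
        have h3 : ∀ y ∈ (Finset.univ : Finset P), ∑ B ∈ C.planes,
            chi B0 x * chi B0 y * (chi B x * chi B y) =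
            chi B0 x * (chi B0 y * lam) +
              (if y = x then chi B0 x * chi B0 y * (r - lam) else 0) := by
          intro y _
          rw [← Finset.mul_sum]
          by_cases hxy : y = x
          · subst hxy
            rw [Finset.sum_congr rfl (fun B _ => chi_sq B y), hrep, if_pos rfl]
            ring
          · rw [hlam x y (Ne.symm hxy), if_neg hxy]
            ring
        rw [Finset.sum_congr rfl h3, Finset.sum_add_distrib, Finset.sum_ite_eq',
          if_pos (Finset.mem_univ x), ← Finset.mul_sum, ← Finset.sum_mul, C.sum_chi_plane hB0m,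
          chi_sq]
      rw [Finset.sum_congr rfl h2, Finset.sum_add_distrib, ← Finset.sum_mul, ← Finset.sum_mul,
        C.sum_chi_plane hB0m]
    have S3 : ∑ B ∈ C.planes, (((B0 ∩ B).ncard : ℤ) - 1) * (((B0 ∩ B).ncard : ℤ) - l) =
        (k - 1) * (k - l) := by
      rw [← Finset.add_sum_erase _ _ hB0m, Set.inter_self, C.plane B0 hB0]
      rw [Finset.sum_eq_zero, add_zero]
      intro B hB
      rw [Finset.mem_erase, C.mem_planes] at hB
      obtain ⟨hne, hB⟩ := hB
      obtain ⟨x, hx0, hx⟩ := C.meet B0 B hB0 hB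
      by_cases h : ∃ y, y ∈ B0 ∩ B ∧ y ≠ x
      · obtain ⟨y, ⟨hy0, hy⟩, hyx⟩ := h
        have : B0 ∩ B = G.ln x y := by
          apply Set.Subset.antisymm
          · rintro z ⟨hz0, hz⟩
            by_contra hzn
            apply hne
            rw [← hB.eq hx hy hz hyx.symm hzn, ← hB0.eq hx0 hy0 hz0 hyx.symm hzn]
          · exact Set.subset_inter (hB0.ln_sub hx0 hy0) (hB.ln_sub hx hy)
        rw [this, C.line x y hyx.symm]
        ring
      · push Not at h
        have : B0 ∩ B = {x} := by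
          apply Set.Subset.antisymm
          · intro z hz
            exact h z hz
          · rintro z rfl
            exact ⟨hx0, hx⟩
        rw [this, Set.ncard_singleton]
        ring
    have S4 : ∑ B ∈ C.planes, (((B0 ∩ B).ncard : ℤ) - 1) * (((B0 ∩ B).ncard : ℤ) - l) =
        ∑ B ∈ C.planes, ((B0 ∩ B).ncard : ℤ) * ((B0 ∩ B).ncard : ℤ) -
          (l + 1) * ∑ B ∈ C.planes, ((B0 ∩ B).ncard : ℤ) + l * (C.planes.card : ℤ) := by
      rw [Finset.mul_sum, ← Finset.sum_sub_distrib]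
      have : (l : ℤ) * (C.planes.card : ℤ) = ∑ B ∈ C.planes, (l : ℤ) := by
        rw [Finset.sum_const, nsmul_eq_mul, mul_comm]
      rw [this, ← Finset.sum_add_distrib]
      apply Finset.sum_congr rfl
      intro B _
      ring
    rw [S3, S2, S1] at S4
    linear_combination (-1) * S4

open Classical in
theorem kappa {B : Set P} (hB : G.IsPl B) {p : P} (hp : p ∈ B) :
    k - 1 = ((Finset.univ.filter (fun x => x ∈ B ∧ x ≠ p)).image (G.ln p)).card * (l - 1) := by
  have h1 : (Finset.univ.filter (fun x => x ∈ B ∧ x ≠ p)).card = k - 1 := by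
    rw [← C.plane B hB, ← Set.ncard_sdiff_singleton_of_mem hp, Set.ncard_eq_toFinset_card']
    congr 1
    ext x; simp
  rw [← h1, Finset.card_eq_sum_card_image (G.ln p), Finset.sum_congr rfl (g := fun _ => l - 1),
    Finset.sum_const, smul_eq_mul]
  intro T hT
  rw [Finset.mem_image] at hT
  obtain ⟨y, hy, rfl⟩ := hT
  simp only [Finset.mem_filter, Finset.mem_univ, true_and] at hy
  obtain ⟨hyB, hyp⟩ := hy
  rw [← C.line p y hyp.symm, ← Set.ncard_sdiff_singleton_of_mem (G.ln_left p y),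
    Set.ncard_eq_toFinset_card']
  congr 1
  ext x
  simp only [Finset.mem_filter, Finset.mem_univ, true_and, Set.mem_toFinset, Set.mem_sdiff,
    Set.mem_singleton_iff]
  constructor
  · rintro ⟨⟨hx, hxp⟩, he⟩
    exact ⟨he ▸ G.ln_right p x, hxp⟩
  · rintro ⟨hx, hxp⟩
    exact ⟨⟨hB.ln_sub hp hyB hx, hxp⟩, G.ln_eq (G.ln_left _ _) hx (Ne.symm hxp)⟩

open Classical in
theorem kappa_line {B : Set P} (hB : G.IsPl B) {p r s : P} (hp : p ∈ B) (hr : r ∈ B) (hs : s ∈ B)
    (hrs : r ≠ s) (hprs : p ∉ G.ln r s) :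
    (Finset.univ.filter (fun x => x ∈ G.ln r s)).image (G.ln p) ⊆
      (Finset.univ.filter (fun x => x ∈ B ∧ x ≠ p)).image (G.ln p) ∧
    ((Finset.univ.filter (fun x => x ∈ G.ln r s)).image (G.ln p)).card = l := by
  constructor
  · apply Finset.image_subset_image
    intro x hx
    simp only [Finset.mem_filter, Finset.mem_univ, true_and] at hx ⊢
    refine ⟨hB.ln_sub hr hs hx, ?_⟩
    rintro rfl
    exact hprs hx
  · rw [Finset.card_image_of_injOn]
    · rw [← C.line r s hrs, Set.ncard_eq_toFinset_card']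
      congr 1
      ext x; simp
    · intro x hx y hy hxy
      simp only [Finset.coe_filter, Finset.mem_univ, true_and, Set.mem_ofPred_eq] at hx hy
      by_contra hne
      apply hprs
      have h1 : y ∈ G.ln p x := by
        rw [hxy]; exact G.ln_right _ _
      rw [← G.ln_eq hx hy hne, G.ln_eq (G.ln_right p x) h1 hne]
      exact G.ln_left _ _

theorem exists_kappa : ∃ κ : ℕ, k - 1 = κ * (l - 1) ∧ l ≤ κ ∧
    (κ = l → ∀ B, G.IsPl B → ∀ p q r s, p ∈ B → q ∈ B → r ∈ B → s ∈ B → p ≠ q → r ≠ s →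
      (G.ln p q ∩ G.ln r s).Nonempty) := by
  classical
  obtain ⟨B0, hB0⟩ := C.ex
  obtain ⟨a0, b0, c0, hab0, hc0, rfl⟩ := id hB0
  have h1 := C.kappa hB0 (G.pl_1 a0 b0 c0)
  refine ⟨_, h1, ?_, ?_⟩
  · have := C.kappa_line hB0 (G.pl_1 a0 b0 c0) (G.pl_2 a0 b0 c0) (G.pl_3 a0 b0 c0)
      (G.ne_of_not_mem hc0).2.symm (G.ncol_rot hab0 hc0)
    rw [← this.2]
    exact Finset.card_le_card this.1
  · intro hκ B hB p q r s hp hq hr hs hpq hrs
    by_cases hprs : p ∈ G.ln r s
    · exact ⟨p, G.ln_left _ _, hprs⟩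
    have h2 := C.kappa hB hp
    rw [hκ] at h1
    have hl1 : 0 < l - 1 := by
      have := C.hl
      omega
    have h3 : ((Finset.univ.filter (fun x => x ∈ B ∧ x ≠ p)).image (G.ln p)).card = l := by
      apply Nat.eq_of_mul_eq_mul_right hl1
      rw [← h2, ← h1]
    obtain ⟨h4, h5⟩ := C.kappa_line hB hp hr hs hrs hprs
    have h6 := Finset.eq_of_subset_of_card_le h4 (by rw [h3, h5])
    have h7 : G.ln p q ∈ (Finset.univ.filter (fun x => x ∈ B ∧ x ≠ p)).image (G.ln p) := by
      apply Finset.mem_image_of_mem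
      simp [hq, hpq.symm]
    rw [← h6, Finset.mem_image] at h7
    obtain ⟨x, hx, hxe⟩ := h7
    simp only [Finset.mem_filter, Finset.mem_univ, true_and] at hx
    exact ⟨x, hxe ▸ G.ln_right p x, hx⟩

theorem lt_card : k < Fintype.card P := by
  obtain ⟨B0, hB0⟩ := C.ex
  obtain ⟨x, hx⟩ := C.out B0 hB0
  rw [← C.plane B0 hB0, ← Nat.card_eq_fintype_card, ← Set.ncard_univ]
  apply Set.ncard_lt_ncard _ (Set.toFinite _)
  rw [Set.ssubset_univ_iff]
  rintro rfl
  exact hx (Set.mem_univ _)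

end Counts

end Pool.Agent.H39.PMD
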