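import Pool.Agent.H39.PMD.NT2
import Pool.Agent.H39.PMD.Geo

set_option autoImplicit false

namespace Pool.Agent.H39.PMD

variable {P : Type} [Fintype P] {G : Geo P} {l k : ℕ}

theorem Counts.params (C : Counts G l k) :
    (l = 2 ∧ k = 3 ∧ (Fintype.card P = 4 ∨ Fintype.card P = 5)) ∨
    (3 ≤ l ∧ ((Fintype.card P : ℤ) = l * (1 + (l - 1) ^ 2) ∨
        (Fintype.card P : ℤ) = l + (1 + l * (l - 1)) * (l - 1) ^ 2) ∧
      (∀ B, G.IsPl B → ∀ p q r s, p ∈ B → q ∈ B → r ∈ B → s ∈ B → p ≠ q → r ≠ s →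
        (G.ln p q ∩ G.ln r s).Nonempty)) := by
  obtain ⟨lam, r, b, h1, h2, h3, h4⟩ := C.main_counts
  obtain ⟨κ, hk, hκ, hmeet⟩ := C.exists_kappa
  have hl := C.hl
  have hlk := C.lt
  have hkv := C.lt_card
  have hk' : (k : ℤ) = 1 + (κ : ℤ) * ((l : ℤ) - 1) := by
    zify [show 1 ≤ k by omega, show 1 ≤ l by omega] at hk
    linarith
  have hlam : 2 ≤ lam := by
    by_contra hc
    have h5 : lam ≤ 1 := by omega
    have h6 : lam * ((k : ℤ) - l) ≤ 1 * ((k : ℤ) - l) :=
      mul_le_mul_of_nonneg_right h5 (by omega)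
    omega
  rcases nt_main (l := l) (κ := κ) (k := k) (lam := lam) (v := Fintype.card P) (r := r) (b := b)
    (by exact_mod_cast hl) hk' (by exact_mod_cast hκ) hlam h1 h2 h3 h4 with h | h
  · obtain ⟨e1, e2, e3⟩ := h
    left
    have e1' : l = 2 := by exact_mod_cast e1
    have e2' : κ = 2 := by exact_mod_cast e2
    subst e1' e2'
    have : (k : ℤ) = 3 := by rw [hk']; norm_num
    refine ⟨rfl, by exact_mod_cast this, ?_⟩
    rw [this] at h1
    rcases e3 with e3 | e3 <;> rw [e3] at h1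
    · left
      push_cast at h1
      omega
    · right
      push_cast at h1
      omega
  · obtain ⟨e1, e2, e3⟩ := h
    right
    have e2' : κ = l := by exact_mod_cast e2
    refine ⟨by exact_mod_cast e1, ?_, hmeet e2'⟩
    subst e2'
    rcases e3 with e3 | e3
    · left
      rw [e3, hk'] at h1
      linear_combination (-1) * h1
    · right
      rw [e3, hk'] at h1
      linear_combination (-1) * h1

end Pool.Agent.H39.PMD
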