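import Pool.Agent.H39.PMD.Coord
import Pool.Agent.H39.PMD.Param
import Pool.Agent.H39.PMD.Mat

set_option autoImplicit false

namespace Pool.Agent.H39.PMD

namespace Sys

variable {P : Type} [Finite P] {S : Sys P}

theorem card_KK {Q : P} (hQ : Q ∈ S.H) : Nat.card S.KK + 1 = (S.G.ln (S.O : P) Q).ncard := by
  obtain ⟨x, hx, hx0⟩ := exists_nz hQ
  have h1 : S.G.ln (S.O : P) Q \ {Q} = Set.range (fun k : S.KK => (tr (k • x) S.O : P)) := by
    ext p
    constructor
    · rintro ⟨hp, hpQ⟩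
      have hpH : p ∉ S.H := fun h => hpQ (S.Y.uniqH S.O.2 hp h (S.G.ln_right _ _) hQ)
      have h2 := (mem_ln_iff (a := S.O) (b := ⟨p, hpH⟩) hQ).1 hp
      rw [vec_O, sub_zero] at h2
      obtain ⟨k, hk⟩ := one_dim hx h2 hx0
      refine ⟨k, ?_⟩
      simp only [hk]
      rw [tr_vec]
    · rintro ⟨k, rfl⟩
      refine ⟨(smul_mem k hx).2 S.O, ?_⟩
      intro h
      have h' : (tr (k • x) S.O : P) = Q := h
      exact (tr (k • x) S.O).2 (h'.symm ▸ hQ)
  have h2 : Function.Injective (fun k : S.KK => (tr (k • x) S.O : P)) := by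
    intro k k' h
    have h3 : k • x = k' • x := tr_ext S.O (Subtype.ext h)
    have h4 : (k - k') • x = 0 := by rw [sub_smul, h3, sub_self]
    rcases smul_eq_zero.1 h4 with h5 | h5
    · exact sub_eq_zero.1 h5
    · exact absurd h5 hx0
  have h3 : (S.G.ln (S.O : P) Q \ {Q}).ncard = Nat.card S.KK := by
    rw [h1, ← Set.image_univ, Set.ncard_image_of_injective _ h2, Set.ncard_univ]
  rw [← h3]
  exact Set.ncard_sdiff_singleton_add_one (S.G.ln_right _ _) (Set.toFinite _)

instance : Module.Finite S.KK S.W := Module.Finite.of_finite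

theorem card_P : Nat.card S.KK ^ (Module.finrank S.KK S.W) =
    (Nat.card S.KK - 1) * Nat.card P + 1 := by
  rw [← Module.natCard_eq_pow_finrank]
  have h1 : Nat.card {w : S.W // w ≠ 0} = Nat.card (S.KKˣ × P) := by
    symm
    apply Nat.card_congr
    refine Equiv.ofBijective (fun cp : S.KKˣ × P => (⟨(cp.1 : S.KK) • S.phi cp.2, ?_⟩ :
      {w : S.W // w ≠ 0})) ⟨?_, ?_⟩
    · exact smul_ne_zero cp.1.ne_zero (phi_ne _)
    · rintro ⟨c, p⟩ ⟨c', p'⟩ h
      have h2 : (c : S.KK) • S.phi p = (c' : S.KK) • S.phi p' := congrArg Subtype.val h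
      have h3 : S.phi p = ((c : S.KK)⁻¹ * c') • S.phi p' := by
        rw [mul_smul, ← h2, smul_smul, inv_mul_cancel₀ c.ne_zero, one_smul]
      have h4 := phi_inj h3
      subst h4
      have h5 : ((c : S.KK) - c') • S.phi p = 0 := by rw [sub_smul, h2, sub_self]
      rcases smul_eq_zero.1 h5 with h6 | h6
      · rw [Units.ext (sub_eq_zero.1 h6)]
      · exact absurd h6 (phi_ne _)
    · rintro ⟨w, hw⟩
      obtain ⟨p, c, hc⟩ := phi_surj w hw
      have hc0 : c ≠ 0 := by
        rintro rfl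
        rw [zero_smul] at hc
        exact hw hc
      exact ⟨⟨Units.mk0 c hc0, p⟩, Subtype.ext hc.symm⟩
  have h2 : Nat.card S.W = Nat.card {w : S.W // w ≠ 0} + 1 := by
    classical
    have : Fintype S.W := Fintype.ofFinite _
    rw [Nat.card_eq_fintype_card, Nat.card_eq_fintype_card, Fintype.card_subtype_compl]
    have h3 : Fintype.card {x : S.W // x = 0} = 1 := by
      rw [Fintype.card_subtype_eq]
    rw [h3]
    have : 0 < Fintype.card S.W := Fintype.card_pos
    omega
  rw [h2, h1, Nat.card_prod]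
  congr 2
  have := Nat.card_units S.KK
  omega

end Sys

variable {α : Type} {M : Matroid α}

/-- from local to global independence -/
theorem indep_of_local {K W : Type} [Field K] [AddCommGroup W] [Module K W]
    (v : α → W)
    (h : ∀ J ⊆ M.E, J.Finite → J.ncard ≤ 3 → M.Indep J → ∀ e ∈ M.E,
      (e ∈ M.closure J ↔ v e ∈ Submodule.span K (v '' J))) :
    ∀ I : Set α, I.Finite → I ⊆ M.E → I.ncard ≤ 4 → (M.Indep I ↔ LinearIndepOn K v I) := by
  intro I hI
  induction I, hI using Set.Finite.induction_on with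
  | empty => intro _ _; simp
  | @insert e J heJ hJ ih =>
    intro hIE hc
    have hJE : J ⊆ M.E := (Set.subset_insert _ _).trans hIE
    have heE : e ∈ M.E := hIE (Set.mem_insert _ _)
    rw [Set.ncard_insert_of_notMem heJ hJ] at hc
    have ih' := ih hJE (by omega)
    rw [Matroid.insert_indep_iff, linearIndepOn_insert heJ, ← ih']
    constructor
    · rintro ⟨h1, h2⟩
      refine ⟨h1, ?_⟩
      rw [← h J hJE hJ (by omega) h1 e heE]
      exact (h2 heJ).2
    · rintro ⟨h1, h2⟩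
      refine ⟨h1, fun _ => ⟨heE, ?_⟩⟩
      rw [h J hJE hJ (by omega) h1 e heE]
      exact h2

/-- the projective case -/
theorem local_span (Sm : Simp M) [Finite ↥M.E] (S : Sys ↥M.E) (hG : S.G = Sm.geo)
    (v : α → S.W) (hv : ∀ e : ↥M.E, v e = S.phi e) :
    ∀ J ⊆ M.E, J.Finite → J.ncard ≤ 3 → M.Indep J → ∀ e ∈ M.E,
      (e ∈ M.closure J ↔ v e ∈ Submodule.span S.KK (v '' J)) := by
  intro J hJE hJ hc hJi e heE
  have hve : v e = S.phi ⟨e, heE⟩ := hv ⟨e, heE⟩
  have : J.ncard = 0 ∨ J.ncard = 1 ∨ J.ncard = 2 ∨ J.ncard = 3 := by omega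
  rcases this with h0 | h1 | h2 | h3
  · rw [Set.ncard_eq_zero hJ] at h0
    rw [h0, Sm.e0.closure, Set.image_empty, Submodule.span_empty, Submodule.mem_bot, hve]
    constructor
    · intro h; exact absurd h (Set.notMem_empty _)
    · intro h; exact absurd h (Sys.phi_ne _)
  · rw [Set.ncard_eq_one] at h1
    obtain ⟨a, rfl⟩ := h1
    have haE : a ∈ M.E := hJE rfl
    rw [(Sm.e1 a haE).closure, Set.image_singleton, Submodule.mem_span_singleton, hve, hv ⟨a, haE⟩]
    constructor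
    · intro h
      rw [Set.mem_singleton_iff] at h
      exact ⟨1, by simp [h]⟩
    · rintro ⟨c, hc⟩
      have := Sys.phi_inj hc.symm
      exact congrArg Subtype.val this
  · rw [Set.ncard_eq_two] at h2
    obtain ⟨a, b, hab, rfl⟩ := h2
    have haE : a ∈ M.E := hJE (by simp)
    have hbE : b ∈ M.E := hJE (by simp)
    have hab' : (⟨a, haE⟩ : ↥M.E) ≠ ⟨b, hbE⟩ := fun h => hab (congrArg Subtype.val h)
    have hcol := Sys.col_iff (S := S) (r := ⟨e, heE⟩) hab'
    rw [hG, Sm.mem_ln] at hcol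
    rw [hcol, Set.image_pair, Submodule.mem_span_pair, hve, hv ⟨a, haE⟩, hv ⟨b, hbE⟩]
    simp only [eq_comm]
  · rw [Set.ncard_eq_three] at h3
    obtain ⟨a, b, c, hab, hac, hbc, rfl⟩ := h3
    have haE : a ∈ M.E := hJE (by simp)
    have hbE : b ∈ M.E := hJE (by simp)
    have hcE : c ∈ M.E := hJE (by simp)
    have hab' : (⟨a, haE⟩ : ↥M.E) ≠ ⟨b, hbE⟩ := fun h => hab (congrArg Subtype.val h)
    have hc' : (⟨c, hcE⟩ : ↥M.E) ∉ Sm.geo.ln ⟨a, haE⟩ ⟨b, hbE⟩ := by
      rw [Sm.mem_ln]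
      have := hJi.notMem_closure_sdiff_of_mem (show c ∈ ({a, b, c} : Set α) by simp)
      have e1 : ({a, b, c} : Set α) \ {c} = {a, b} := by
        ext x
        simp only [Set.mem_sdiff, Set.mem_insert_iff, Set.mem_singleton_iff]
        constructor
        · rintro ⟨h | h | h, h'⟩
          · exact Or.inl h
          · exact Or.inr h
          · exact absurd h h'
        · rintro (rfl | rfl)
          · exact ⟨Or.inl rfl, hac⟩
          · exact ⟨Or.inr (Or.inl rfl), hbc⟩
      rwa [e1] at this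
    have hpl := Sys.pl_iff (S := S) (d := ⟨e, heE⟩) hab' (by rw [hG]; exact hc')
    rw [hG, Sm.mem_pl] at hpl
    rw [hpl, Set.image_insert_eq, Set.image_pair, Submodule.mem_span_triple, hve, hv ⟨a, haE⟩,
      hv ⟨b, hbE⟩, hv ⟨c, hcE⟩]
    simp only [eq_comm]

/-- the Boolean case -/
theorem bool_case (Sm : Simp M) [Fintype ↥M.E] (C : Counts Sm.geo 2 3) :
    ∀ I : Set α, I.Finite → I ⊆ M.E → I.ncard ≤ 4 → M.Indep I := by
  have hcl : ∀ J ⊆ M.E, J.Finite → J.ncard ≤ 3 → M.Indep J → M.closure J ⊆ J := by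
    intro J hJE hJ hc hJi
    have : J.ncard = 0 ∨ J.ncard = 1 ∨ J.ncard = 2 ∨ J.ncard = 3 := by omega
    rcases this with h0 | h1 | h2 | h3
    · rw [Set.ncard_eq_zero hJ] at h0
      rw [h0, Sm.e0.closure]
    · rw [Set.ncard_eq_one] at h1
      obtain ⟨a, rfl⟩ := h1
      rw [(Sm.e1 a (hJE rfl)).closure]
    · have h2' := h2
      rw [Set.ncard_eq_two] at h2
      obtain ⟨a, b, hab, rfl⟩ := h2
      have haE : a ∈ M.E := hJE (by simp)
      have hbE : b ∈ M.E := hJE (by simp)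
      have hab' : (⟨a, haE⟩ : ↥M.E) ≠ ⟨b, hbE⟩ := fun h => hab (congrArg Subtype.val h)
      have h4 := C.line _ _ hab'
      rw [Sm.ncard_ln] at h4
      have h5 := Set.eq_of_subset_of_ncard_le (M.subset_closure _ hJE) (by rw [h4, h2'])
        (Sm.fin.ground_finite.subset (M.closure_subset_ground _))
      rw [← h5]
    · have h3' := h3
      rw [Set.ncard_eq_three] at h3
      obtain ⟨a, b, c, hab, hac, hbc, rfl⟩ := h3
      have haE : a ∈ M.E := hJE (by simp)
      have hbE : b ∈ M.E := hJE (by simp)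
      have hcE : c ∈ M.E := hJE (by simp)
      have hab' : (⟨a, haE⟩ : ↥M.E) ≠ ⟨b, hbE⟩ := fun h => hab (congrArg Subtype.val h)
      have hc' : (⟨c, hcE⟩ : ↥M.E) ∉ Sm.geo.ln ⟨a, haE⟩ ⟨b, hbE⟩ := by
        rw [Sm.mem_ln]
        have := hJi.notMem_closure_sdiff_of_mem (show c ∈ ({a, b, c} : Set α) by simp)
        have e1 : ({a, b, c} : Set α) \ {c} = {a, b} := by
          ext x
          simp only [Set.mem_sdiff, Set.mem_insert_iff, Set.mem_singleton_iff]
          constructor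
          · rintro ⟨h | h | h, h'⟩
            · exact Or.inl h
            · exact Or.inr h
            · exact absurd h h'
          · rintro (rfl | rfl)
            · exact ⟨Or.inl rfl, hac⟩
            · exact ⟨Or.inr (Or.inl rfl), hbc⟩
        rwa [e1] at this
      have h4 := C.plane _ (Sm.geo.isPl hab' hc')
      rw [Sm.ncard_pl] at h4
      have h5 := Set.eq_of_subset_of_ncard_le (M.subset_closure _ hJE) (by rw [h4, h3'])
        (Sm.fin.ground_finite.subset (M.closure_subset_ground _))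
      rw [← h5]
  intro I hI
  induction I, hI using Set.Finite.induction_on with
  | empty => intro _ _; exact M.empty_indep
  | @insert e J heJ hJ ih =>
    intro hIE hc
    have hJE : J ⊆ M.E := (Set.subset_insert _ _).trans hIE
    have heE : e ∈ M.E := hIE (Set.mem_insert _ _)
    rw [Set.ncard_insert_of_notMem heJ hJ] at hc
    have ih' := ih hJE (by omega)
    rw [Matroid.insert_indep_iff]
    exact ⟨ih', fun _ => ⟨heE, fun h => heJ (hcl J hJE hJ (by omega) ih' h)⟩⟩

theorem main (hfin : M.Finite) (h0 : M.IsFlat ∅) (h1 : ∀ e ∈ M.E, M.IsFlat {e})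
    (hF : ∀ F₁ F₂ : Set α, M.IsFlat F₁ → M.IsFlat F₂ → M.eRk F₁ = M.eRk F₂ → F₁.ncard = F₂.ncard)
    (h4 : M.eRk M.E = 4)
    (hH : ∀ H₁ H₂ : Set α, M.IsFlat H₁ → M.IsFlat H₂ → M.eRk H₁ = 3 → M.eRk H₂ = 3 →
      (H₁ ∩ H₂).Nonempty) :
    (((M.E.ncard = 4 ∨ M.E.ncard = 5) ∧ ∀ I ⊆ M.E, I.ncard ≤ 4 → M.Indep I) ∨
      (∃ (K : Type) (_ : Field K) (n : ℕ) (v : α → Fin n → K),
        (n = 4 ∨ n = 5) ∧ (∀ e ∈ M.E, v e ≠ 0) ∧
        (∀ w : Fin n → K, w ≠ 0 → ∃ e ∈ M.E, ∃ c : K, w = c • v e) ∧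
        ∀ I ⊆ M.E, (M.Indep I ↔ (I.ncard ≤ 4 ∧ LinearIndependent K (fun x : I => v x))))) := by
  classical
  have Sm : Simp M := ⟨hfin, h0, h1⟩
  have hEfin : M.E.Finite := hfin.ground_finite
  have : Fintype ↥M.E := hEfin.fintype
  have hcard : M.E.ncard = Fintype.card ↥M.E := by
    rw [← Nat.card_coe_set_eq, Nat.card_eq_fintype_card]
  obtain ⟨l, k, C⟩ := Sm.counts h4 hF hH
  rcases C.params with ⟨rfl, rfl, hc⟩ | ⟨hl, hc, hmeet⟩
  · left
    refine ⟨by rw [hcard]; exact hc, ?_⟩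
    intro I hI hI4
    exact bool_case Sm C I (hEfin.subset hI) hI hI4
  right
  have A : PGeo Sm.geo := by
    refine ⟨hmeet, ?_, Sm.outside h4⟩
    intro a b hab
    have h2 : 2 < (Sm.geo.ln a b).ncard := by rw [C.line a b hab]; omega
    by_contra hcon
    push Not at hcon
    have h3 : Sm.geo.ln a b ⊆ {a, b} := by
      intro c hc
      by_cases hca : c = a
      · left; exact hca
      · right; exact hcon c hc hca
    have h5 := Set.ncard_le_ncard h3 (Set.toFinite _)
    rw [Set.ncard_pair hab] at h5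
    omega
  have hne : Nonempty ↥M.E := by
    obtain ⟨a, b, c, d, ha, -⟩ := Sm.exists4 h4
    exact ⟨⟨a, ha⟩⟩
  obtain ⟨H, Y⟩ := A.exists_hyp
  let S : Sys ↥M.E := ⟨Sm.geo, A, H, Y⟩
  -- the size of the field
  obtain ⟨Q, hQ, -⟩ := Sys.exists_other (S := S) S.O
  have hOQ : (S.O : ↥M.E) ≠ Q := fun h => S.O.2 (h ▸ hQ)
  have hK : Nat.card S.KK + 1 = l := by
    rw [Sys.card_KK hQ]
    exact C.line _ _ hOQ
  have hP := Sys.card_P (S := S)
  have hn : Module.finrank S.KK S.W = 4 ∨ Module.finrank S.KK S.W = 5 := by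
    obtain ⟨q, hq⟩ : ∃ q, q = Nat.card S.KK := ⟨_, rfl⟩
    rw [← hq] at hP hK
    have hq2 : 2 ≤ q := by omega
    rw [Nat.card_eq_fintype_card] at hP
    have hlq : (l : ℤ) = q + 1 := by rw [← hK]; push_cast; ring
    rw [hlq] at hc
    have hP' : (q : ℤ) ^ Module.finrank S.KK S.W = ((q : ℤ) - 1) * (Fintype.card ↥M.E : ℤ) + 1 := by
      zify [show 1 ≤ q by omega] at hP
      exact hP
    rcases hc with hc | hc
    · left
      rw [hc] at hP'
      have h5 : (q : ℤ) ^ Module.finrank S.KK S.W = (q : ℤ) ^ 4 := by rw [hP']; ring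
      exact Nat.pow_right_injective hq2 (by exact_mod_cast h5)
    · right
      rw [hc] at hP'
      have h5 : (q : ℤ) ^ Module.finrank S.KK S.W = (q : ℤ) ^ 5 := by rw [hP']; ring
      exact Nat.pow_right_injective hq2 (by exact_mod_cast h5)
  -- coordinates
  let n := Module.finrank S.KK S.W
  let L : S.W ≃ₗ[S.KK] (Fin n → S.KK) := (Module.finBasis S.KK S.W).equivFun
  let u : α → S.W := fun e => if h : e ∈ M.E then S.phi ⟨e, h⟩ else 0
  have hu : ∀ e : ↥M.E, u e = S.phi e := fun e => dif_pos e.2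
  refine ⟨S.KK, inferInstance, n, fun e => L (u e), hn, ?_, ?_, ?_⟩
  · intro e he h
    have h5 : u e = 0 := by simpa using h
    rw [hu ⟨e, he⟩] at h5
    exact Sys.phi_ne _ h5
  · intro w hw
    obtain ⟨p, c, hpc⟩ := Sys.phi_surj (L.symm w) (by simpa using hw)
    refine ⟨p, p.2, c, ?_⟩
    show w = c • L (u p)
    rw [hu p, ← map_smul, ← hpc, LinearEquiv.apply_symm_apply]
  · have hloc := indep_of_local u (local_span Sm S rfl u hu)
    intro I hI
    have hIf := hEfin.subset hI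
    have h5 : LinearIndependent S.KK (fun x : I => L (u x)) ↔ LinearIndepOn S.KK u I := by
      have : (fun x : I => L (u x)) = (L : S.W →ₗ[S.KK] (Fin n → S.KK)) ∘ (fun x : I => u x) := rfl
      rw [this]
      exact (L : S.W →ₗ[S.KK] (Fin n → S.KK)).linearIndependent_iff L.ker
    constructor
    · intro hi
      have h6 : I.ncard ≤ 4 := by
        have h7 := hi.encard_le_eRk_of_subset hI
        rw [h4, ← hIf.cast_ncard_eq] at h7
        exact_mod_cast h7
      exact ⟨h6, h5.2 ((hloc I hIf hI h6).1 hi)⟩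
    · rintro ⟨h6, h7⟩
      exact (hloc I hIf hI h6).2 (h5.1 h7)

end Pool.Agent.H39.PMD
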