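import Pool.Agent.H39.PMD.Dil

set_option autoImplicit false

namespace Pool.Agent.H39.PMD

namespace Sys

variable {P : Type} (S : Sys P)

/-- the translations as a vector space -/
def V : Type := Additive ↥S.T

noncomputable instance [Finite P] : AddCommGroup S.V :=
  { (inferInstance : AddGroup (Additive ↥S.T)) with
    add_comm := fun a b => by
      apply Additive.toMul.injective
      apply Subtype.ext
      exact comm_T (Additive.toMul a).2 (Additive.toMul b).2 }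

instance [Finite P] : Finite S.V := by
  unfold V
  infer_instance

variable {S}

/-- the translation as a permutation -/
def tr (x : S.V) : Equiv.Perm (Af S.H) := (Additive.toMul x).1

theorem tr_isT (x : S.V) : S.IsT (tr x) := (Additive.toMul x).2

theorem tr_inj {x y : S.V} (h : tr x = tr y) : x = y :=
  Additive.toMul.injective (Subtype.ext h)

/-- build a vector from a translation -/
def ofT (τ : Equiv.Perm (Af S.H)) (h : S.IsT τ) : S.V := Additive.ofMul ⟨τ, h⟩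

theorem tr_ofT (τ : Equiv.Perm (Af S.H)) (h : S.IsT τ) : tr (ofT τ h) = τ := rfl

theorem tr_add [Finite P] (x y : S.V) : tr (x + y) = tr x * tr y := rfl

theorem tr_zero [Finite P] : tr (0 : S.V) = 1 := rfl

theorem tr_neg [Finite P] (x : S.V) : tr (-x) = (tr x)⁻¹ := rfl

theorem tr_sub [Finite P] (x y : S.V) : tr (x - y) = tr x * (tr y)⁻¹ := by
  rw [sub_eq_add_neg, tr_add, tr_neg]

theorem tr_ext {x y : S.V} (a : Af S.H) (h : tr x a = tr y a) : x = y :=
  tr_inj ((tr_isT x).uniq (tr_isT y) h)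

variable (S)

/-- the vectors with direction `Q` -/
noncomputable def VQ [Finite P] (Q : P) (hQ : Q ∈ S.H) : AddSubgroup S.V where
  carrier := {x | tr x ∈ S.TQ Q hQ}
  add_mem' := fun ha hb => (S.TQ Q hQ).mul_mem ha hb
  zero_mem' := (S.TQ Q hQ).one_mem
  neg_mem' := fun ha => (S.TQ Q hQ).inv_mem ha

variable {S}

theorem mem_VQ [Finite P] {Q : P} {hQ : Q ∈ S.H} {x : S.V} :
    x ∈ S.VQ Q hQ ↔ tr x ∈ S.TQ Q hQ := Iff.rfl

theorem VQ_disj [Finite P] {Q R : P} {hQ : Q ∈ S.H} {hR : R ∈ S.H} (hQR : Q ≠ R) {x : S.V}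
    (h1 : x ∈ S.VQ Q hQ) (h2 : x ∈ S.VQ R hR) : x = 0 :=
  tr_inj (TQ_disj (hQ := hQ) (hR := hR) hQR h1 h2)

theorem exists_VQ [Finite P] {x : S.V} (hx : x ≠ 0) : ∃ Q, ∃ hQ : Q ∈ S.H, x ∈ S.VQ Q hQ :=
  exists_TQ (tr_isT x) (fun h => hx (tr_inj h))

variable (S)

/-- the base point -/
noncomputable def O : Af S.H := ⟨Classical.choose S.Y.proper, Classical.choose_spec S.Y.proper⟩

/-- position vector -/
noncomputable def vec [Finite P] (a : Af S.H) : S.V :=
  ofT (Classical.choose (S.exists_T S.O a)) (Classical.choose_spec (S.exists_T S.O a)).1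

variable {S}

theorem tr_vec [Finite P] (a : Af S.H) : tr (S.vec a) S.O = a :=
  (Classical.choose_spec (S.exists_T S.O a)).2

theorem vec_tr [Finite P] (x : S.V) : S.vec (tr x S.O) = x :=
  tr_ext S.O (tr_vec _)

theorem vec_O [Finite P] : S.vec S.O = 0 := tr_ext S.O (tr_vec _)

theorem vec_inj [Finite P] {a b : Af S.H} (h : S.vec a = S.vec b) : a = b := by
  rw [← tr_vec a, h, tr_vec]

theorem tr_vsub [Finite P] (a b : Af S.H) : tr (S.vec b - S.vec a) a = b := by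
  rw [tr_sub, Equiv.Perm.mul_apply]
  have : (tr (S.vec a))⁻¹ a = S.O := by
    rw [Equiv.Perm.inv_eq_iff_eq, tr_vec]
  rw [this, tr_vec]

theorem mem_ln_iff [Finite P] {a b : Af S.H} {Q : P} (hQ : Q ∈ S.H) :
    (b : P) ∈ S.G.ln a Q ↔ S.vec b - S.vec a ∈ S.VQ Q hQ := by
  constructor
  · intro h
    refine mem_TQ' (hQ := hQ) (tr_isT _) a ?_
    rw [tr_vsub]; exact h
  · intro h
    have := h.2 a
    rwa [tr_vsub] at this

theorem exists_nz [Finite P] {Q : P} (hQ : Q ∈ S.H) : ∃ x ∈ S.VQ Q hQ, x ≠ 0 := by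
  have hne : (S.O : P) ≠ Q := fun h => S.O.2 (h ▸ hQ)
  obtain ⟨c, hc, hc1, hc2⟩ := S.A.three (S.O : P) Q hne
  have hcH : c ∉ S.H := fun h => hc2 (S.Y.uniqH S.O.2 hc h (S.G.ln_right _ _) hQ)
  refine ⟨S.vec ⟨c, hcH⟩, ?_, ?_⟩
  · have := (mem_ln_iff (a := S.O) (b := ⟨c, hcH⟩) hQ).1 hc
    rwa [vec_O, sub_zero] at this
  · intro h
    rw [← vec_O] at h
    exact hc1 (congrArg Subtype.val (vec_inj h))

/-- there are at least two directions -/
theorem exists_other [Finite P] (Q : P) : ∃ R, R ∈ S.H ∧ R ≠ Q := by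
  obtain ⟨e, he⟩ := S.exists_off Q S.O.2
  have hne : S.O ≠ e := by rintro h; exact he (h ▸ S.G.ln_left _ _)
  refine ⟨S.Y.dir S.O e, S.Y.dir_mem (vne hne), ?_⟩
  intro h
  apply he
  rw [← h, S.Y.ln_dir S.O.2 (vne hne)]
  exact S.G.ln_right _ _

variable (S)

/-- the kernel -/
noncomputable def K [Finite P] : Subring (AddMonoid.End S.V) where
  carrier := {f | ∀ Q, ∀ hQ : Q ∈ S.H, ∀ x ∈ S.VQ Q hQ, f x ∈ S.VQ Q hQ}
  mul_mem' := fun hf hg _ _ _ hx => hf _ _ _ (hg _ _ _ hx)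
  one_mem' := fun _ _ _ hx => hx
  add_mem' := fun hf hg Q hQ x hx => (S.VQ Q hQ).add_mem (hf Q hQ x hx) (hg Q hQ x hx)
  zero_mem' := fun Q hQ _ _ => (S.VQ Q hQ).zero_mem
  neg_mem' := fun hf Q hQ x hx => (S.VQ Q hQ).neg_mem (hf Q hQ x hx)

variable {S}

theorem K_zero [Finite P] {f : AddMonoid.End S.V} (hf : f ∈ S.K) {x : S.V} (hx : x ≠ 0)
    (hfx : f x = 0) : f = 0 := by
  have key : ∀ x : S.V, x ≠ 0 → f x = 0 → ∀ Q, ∀ hQ : Q ∈ S.H, x ∈ S.VQ Q hQ → ∀ R,
      ∀ hR : R ∈ S.H, R ≠ Q → ∀ z ∈ S.VQ R hR, f z = 0 := by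
    intro x hx hfx Q hQ hxQ R hR hRQ z hz
    by_cases hxz : x + z = 0
    · have : f (x + z) = 0 := by rw [hxz, map_zero]
      rwa [map_add, hfx, zero_add] at this
    obtain ⟨U, hU, hxzU⟩ := exists_VQ hxz
    have hUR : U ≠ R := by
      rintro rfl
      apply hx
      apply VQ_disj hRQ.symm hxQ (hR := hU)
      have : x = (x + z) - z := by abel
      rw [this]
      exact (S.VQ U hU).sub_mem hxzU hz
    have h1 := hf U hU _ hxzU
    rw [map_add, hfx, zero_add] at h1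
    exact VQ_disj hUR h1 (hf R hR z hz)
  obtain ⟨Q, hQ, hxQ⟩ := exists_VQ hx
  obtain ⟨R, hR, hRQ⟩ := exists_other (S := S) Q
  obtain ⟨w, hw, hw0⟩ := exists_nz hR
  have hfw := key x hx hfx Q hQ hxQ R hR hRQ w hw
  have : ∀ z, f z = 0 := by
    intro z
    by_cases hz : z = 0
    · rw [hz, map_zero]
    obtain ⟨U, hU, hzU⟩ := exists_VQ hz
    by_cases hUQ : U = Q
    · subst hUQ
      exact key w hw0 hfw R hR hw U hU hRQ.symm z hzU
    · exact key x hx hfx Q hQ hxQ U hU hUQ z hzU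
  ext z
  exact this z

variable (S)

/-- the type of scalars -/
def KK [Finite P] : Type := ↥S.K

noncomputable instance [Finite P] : Ring S.KK := inferInstanceAs (Ring ↥S.K)

instance [Finite P] : Finite S.KK := by
  have : Finite (AddMonoid.End S.V) := DFunLike.finite _
  unfold KK
  infer_instance

instance [Finite P] : IsDomain S.KK := by
  have h1 : Nontrivial S.KK := by
    obtain ⟨Q, hQ, -⟩ := exists_other (S := S) S.O
    obtain ⟨w, -, hw0⟩ := exists_nz hQ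
    refine ⟨0, 1, ?_⟩
    intro h
    apply hw0
    have h2 : ((0 : S.KK) : ↥S.K).1 w = ((1 : S.KK) : ↥S.K).1 w := by rw [h]
    exact h2.symm
  have h2 : NoZeroDivisors S.KK := by
    constructor
    intro f g hfg
    by_contra hc
    push Not at hc
    obtain ⟨hf, hg⟩ := hc
    obtain ⟨x, hx⟩ : ∃ x, g.1 x ≠ 0 := by
      by_contra hc
      push Not at hc
      apply hg
      apply Subtype.ext
      ext x
      exact hc x
    apply hf
    apply Subtype.ext
    apply K_zero f.2 hx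
    have h3 : (f * g : S.KK).1 x = (0 : S.KK).1 x := by rw [hfg]
    exact h3
  exact NoZeroDivisors.to_isDomain _

noncomputable instance fieldK [Finite P] : Field S.KK := (Finite.isDomain_to_isField S.KK).toField

noncomputable instance modK [Finite P] : Module S.KK S.V where
  smul k x := k.1 x
  one_smul _ := rfl
  mul_smul _ _ _ := rfl
  smul_zero k := map_zero k.1
  smul_add k := map_add k.1
  add_smul _ _ _ := rfl
  zero_smul _ := rfl

variable {S}

theorem smul_mem [Finite P] (k : S.KK) {Q : P} {hQ : Q ∈ S.H} {x : S.V} (hx : x ∈ S.VQ Q hQ) :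
    k • x ∈ S.VQ Q hQ := k.2 Q hQ x hx

theorem conj_isT {σ τ : Equiv.Perm (Af S.H)} (hσ : σ ∈ S.Dil) (hτ : S.IsT τ) :
    S.IsT (σ * τ * σ⁻¹) := S.conj_T hσ hτ

/-- conjugation with a dilatation, as a map on vectors -/
noncomputable def conjF (σ : Equiv.Perm (Af S.H)) (hσ : σ ∈ S.Dil) (x : S.V) : S.V :=
  ofT (σ * tr x * σ⁻¹) (conj_isT hσ (tr_isT x))

theorem tr_conjF (σ : Equiv.Perm (Af S.H)) (hσ : σ ∈ S.Dil) (x : S.V) :
    tr (conjF σ hσ x) = σ * tr x * σ⁻¹ := rfl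

/-- conjugation with a dilatation -/
noncomputable def conj [Finite P] (σ : Equiv.Perm (Af S.H)) (hσ : σ ∈ S.Dil) : S.KK :=
  ⟨{ toFun := conjF σ hσ
     map_zero' := by
      apply tr_inj
      rw [tr_conjF, tr_zero]; simp
     map_add' := by
      intro x y
      apply tr_inj
      rw [tr_conjF, tr_add, tr_add, tr_conjF, tr_conjF]
      group }, fun _ hQ _ hx => conj_TQ (hQ := hQ) hσ hx⟩

theorem conj_apply [Finite P] (σ : Equiv.Perm (Af S.H)) (hσ : σ ∈ S.Dil) (x : S.V) :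
    tr (conj σ hσ • x) = σ * tr x * σ⁻¹ := tr_conjF σ hσ x

theorem one_dim [Finite P] {Q : P} {hQ : Q ∈ S.H} {x y : S.V} (hx : x ∈ S.VQ Q hQ)
    (hy : y ∈ S.VQ Q hQ) (hx0 : x ≠ 0) : ∃ k : S.KK, k • x = y := by
  by_cases hy0 : y = 0
  · exact ⟨0, by rw [hy0, zero_smul]⟩
  have h1 := hx.2 S.O
  have h2 := hy.2 S.O
  have h3 : tr x S.O ≠ S.O := fun h => hx0 (tr_ext S.O h)
  have h4 : tr y S.O ≠ S.O := fun h => hy0 (tr_ext S.O h)
  have hAP : AP S.G S.H (S.O : P) (tr x S.O) (tr y S.O) := by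
    refine ⟨(tr x S.O).2, vne h3, (tr y S.O).2, vne h4, ?_⟩
    rw [S.G.ln_eq (S.G.ln_left _ _) h1 (vne h3.symm)]
    exact h2
  obtain ⟨σ, hσ, hσ1, -, hσ2⟩ := S.cdil hAP
  refine ⟨conj σ hσ, ?_⟩
  apply tr_ext S.O
  rw [conj_apply, Equiv.Perm.mul_apply, Equiv.Perm.mul_apply]
  have : σ⁻¹ S.O = S.O := by
    rw [Equiv.Perm.inv_eq_iff_eq, hσ2 S.O rfl]
  rw [this, hσ1]

end Sys

end Pool.Agent.H39.PMD
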