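import Mathlib

set_option autoImplicit false

namespace Pool.Agent.H39.PMD

/-- the main reduction: `C2 κ^2 - (2y²+3Ly+L²) κ + (y²+Ly) = 0` -/
theorem quad_y {l κ x y : ℤ} (hy : y = l * x ^ 2 - l * (κ * (l - 3) + l) * x + κ * (κ - l))
    (h : (κ - 1) * y = l * (l - 1) * x) (hl : 1 < l) :
    (y ^ 2 - l * (l - 1) * ((l - 3) * y - (l - 1))) * κ ^ 2 -
      (2 * y ^ 2 + 3 * (l * (l - 1)) * y + (l * (l - 1)) ^ 2) * κ + (y ^ 2 + l * (l - 1) * y) = 0 := by
  have h0 : l * (l - 1) ^ 2 ≠ 0 := by
    have : 0 < l := by linarith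
    have : 0 < l - 1 := by linarith
    positivity
  have hl0 : l ≠ 0 := by linarith
  -- `l (l-1)^2 * (definition of y)`
  have h1 : l * ((l * (l - 1) ^ 2) * (l * x ^ 2 - l * (κ * (l - 3) + l) * x + κ * (κ - l) - y)) = 0 := by
    rw [← hy]; ring
  have h2 : l * ((l * (l - 1) ^ 2) * (l * x ^ 2 - l * (κ * (l - 3) + l) * x + κ * (κ - l) - y)) =
      l * ((l * (l - 1) * x) ^ 2 - l * (l - 1) * (κ * (l - 3) + l) * (l * (l - 1) * x)
        + l * (l - 1) ^ 2 * (κ * (κ - l) - y)) := by ring
  rw [h2, ← h] at h1
  have h3 := (mul_eq_zero.1 h1).resolve_left hl0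
  linear_combination h3

set_option maxHeartbeats 4000000 in
/-- no solutions for `l ≥ 6` -/
theorem nt6 {l κ x : ℤ} (hl : 6 ≤ l) (hκ : l < κ) (hdiv : κ ∣ x * (x - 1)) (hx : 0 < x)
    (heq : (κ - 1) * (l * x ^ 2 - l * (κ * (l - 3) + l) * x + κ * (κ - l)) = l * (l - 1) * x) :
    False := by
  obtain ⟨y, hy⟩ : ∃ y, y = l * x ^ 2 - l * (κ * (l - 3) + l) * x + κ * (κ - l) := ⟨_, rfl⟩
  rw [← hy] at heq
  have hq := quad_y hy heq (by linarith)
  obtain ⟨L, hL⟩ : ∃ L, L = l * (l - 1) := ⟨_, rfl⟩
  rw [← hL] at heq hq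
  have hL30 : 30 ≤ L := by
    rw [hL]
    have := mul_le_mul hl (show (5:ℤ) ≤ l - 1 by linarith) (by norm_num) (by linarith)
    linarith
  have hy1 : 1 ≤ y := by
    by_contra hc
    have h1 : y ≤ 0 := by linarith
    have h2 : (κ - 1) * y ≤ 0 := mul_nonpos_of_nonneg_of_nonpos (by linarith) h1
    have h3 : 0 < L * x := mul_pos (by linarith) hx
    linarith
  have hκ1 : 1 ≤ κ := by linarith
  -- positivity of the leading coefficient
  have hC : 0 < y ^ 2 - L * ((l - 3) * y - (l - 1)) := by
    by_contra hc
    have h1 : (y ^ 2 - L * ((l - 3) * y - (l - 1))) * κ ^ 2 ≤ 0 :=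
      mul_nonpos_of_nonpos_of_nonneg (by linarith) (sq_nonneg κ)
    have h2 : (2 * y ^ 2 + 3 * L * y + L ^ 2) * 1 ≤ (2 * y ^ 2 + 3 * L * y + L ^ 2) * κ := by
      apply mul_le_mul_of_nonneg_left hκ1
      have : 0 ≤ L * y := mul_nonneg (by linarith) (by linarith)
      have := sq_nonneg y
      have := sq_nonneg L
      linarith
    have h3 : 0 < L * y := mul_pos (by linarith) (by linarith)
    have := sq_nonneg y
    have := sq_nonneg L
    linarith
  -- case y = 1
  rcases eq_or_lt_of_le hy1 with h1 | h1
  · rw [← h1] at heq hq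
    have h2 : L + 1 ≤ κ := by
      have : L * 1 ≤ L * x := mul_le_mul_of_nonneg_left (show (1:ℤ) ≤ x from hx) (by linarith)
      linarith
    have h3 : (2 * L + 1) * κ ^ 2 - (L ^ 2 + 3 * L + 2) * κ + (1 + L) = 0 := by
      have e1 : L * ((l - 3) * 1 - (l - 1)) = - 2 * L := by ring
      have : (1 ^ 2 - L * ((l - 3) * 1 - (l - 1))) = 2 * L + 1 := by rw [e1]; ring
      rw [this] at hq
      linear_combination hq
    have h4 : 0 ≤ κ * ((2 * L + 1) * (κ - (L + 1))) := by
      apply mul_nonneg (by linarith)
      apply mul_nonneg (by linarith) (by linarith)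
    clear * - h3 h4 hL30 hκ1 h2
    -- (2L+1)κ² - (L²+3L+2)κ + (1+L) = κ((2L+1)(κ-(L+1)) + L²) - κ ... > 0
    have h5 : 0 ≤ κ * (L * (L - 1)) := mul_nonneg (by linarith) (mul_nonneg (by linarith) (by linarith))
    have h6 : κ * ((2 * L + 1) * (κ - (L + 1))) + κ * (L * (L - 1)) + κ * L - κ + (1 + L) = 0 := by
      linear_combination h3
    have h7 : κ * 1 ≤ κ * L := mul_le_mul_of_nonneg_left (by linarith) (by linarith)
    linarith
  -- y is at least G - 1
  have hG : L * (l - 3) - 1 ≤ y := by
    by_contra hc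
    have h2 : y ≤ L * (l - 3) - 2 := by linarith
    have h3 : 0 ≤ (y - 2) * (L * (l - 3) - 2 - y) := mul_nonneg (by linarith) (by linarith)
    have h4 : L * 6 ≤ L * l := mul_le_mul_of_nonneg_left hl (by linarith)
    clear * - hC h3 h4 hL30 hl
    -- y² ≤ (G) y - 2 y + ... ; combine with `hC`
    have h5 : 0 ≤ (L * l - L * 6) := by linarith
    linarith
  -- the complementary quantities
  obtain ⟨w, hw⟩ : ∃ w, w = κ * (l - 3) + l - x := ⟨_, rfl⟩
  obtain ⟨u, hu⟩ : ∃ u, u = L * (l - 3) - y := ⟨_, rfl⟩
  have hu1 : u ≤ 1 := by linarith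
  have hE : l * x * (w * (κ - 1) + (l - 1)) = κ * (κ - 1) * (κ - l) := by
    have : l * x * (w * (κ - 1) + (l - 1)) = κ * (κ - 1) * (κ - l) -
      ((κ - 1) * (l * x ^ 2 - l * (κ * (l - 3) + l) * x + κ * (κ - l)) - l * (l - 1) * x) := by
      rw [hw]; ring
    rw [this, ← hy, ← hL, heq]; ring
  have huw : u * (κ - 1) = L * (w - (2 * l - 3)) := by
    have : u * (κ - 1) = L * (l - 3) * (κ - 1) - (κ - 1) * y := by rw [hu]; ring
    rw [this, heq, hw]; ring
  have hw0 : 0 ≤ w := by
    by_contra hc
    have h2 : w ≤ -1 := by linarith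
    have h3 : w * (κ - 1) ≤ (-1) * (κ - 1) := mul_le_mul_of_nonneg_right h2 (by linarith)
    have h4 : w * (κ - 1) + (l - 1) ≤ 0 := by linarith
    have h5 : l * x * (w * (κ - 1) + (l - 1)) ≤ 0 :=
      mul_nonpos_of_nonneg_of_nonpos (mul_nonneg (by linarith) hx.le) h4
    have h6 : 0 < κ * (κ - 1) * (κ - l) := by
      apply mul_pos (mul_pos (by linarith) (by linarith)) (by linarith)
    linarith
  rcases lt_trichotomy u 0 with hu0 | hu0 | hu0
  · -- u < 0 : w ≤ 2 l - 4
    have hw2 : w ≤ 2 * l - 4 := by
      by_contra hc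
      have h2 : 0 ≤ L * (w - (2 * l - 3)) := mul_nonneg (by linarith) (by linarith)
      have h3 : u * (κ - 1) < 0 := mul_neg_of_neg_of_pos hu0 (by linarith)
      linarith
    have hdiv2 : κ ∣ (l - w) * (l - w - 1) := by
      have : (l - w) * (l - w - 1) = x * (x - 1) + κ * (-(l - 3) * (l - w + x - 1)) := by
        rw [hw]; ring
      rw [this]
      exact dvd_add hdiv (dvd_mul_right _ _)
    rcases eq_or_lt_of_le hw0 with h0 | h0
    · -- w = 0
      rw [← h0] at hE hdiv2
      have hE2 : L * (κ * (l - 3) + l) = κ * (κ - 1) * (κ - l) := by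
        rw [← hE, hL, show x = κ * (l - 3) + l by rw [hw] at h0; linarith]; ring
      have hdiv3 : κ ∣ L := by
        rw [hL]; simpa using hdiv2
      obtain ⟨c, hc⟩ := hdiv3
      have hc0 : 0 < c := by
        by_contra hcc
        have : κ * c ≤ 0 := mul_nonpos_of_nonneg_of_nonpos (by linarith) (by linarith)
        linarith
      have hE3 : c * (κ * (l - 3) + l) = (κ - 1) * (κ - l) := by
        have hκ0 : κ ≠ 0 := by linarith
        apply mul_left_cancel₀ hκ0
        linear_combination hE2 - (κ * (l - 3) + l) * hc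
      -- divide by κ once more
      have hE4 : κ * (κ - (l + 1) - c * (l - 3)) = l * (c - 1) := by
        linear_combination - hE3
      obtain ⟨d, hd⟩ : ∃ d, d = κ - (l + 1) - c * (l - 3) := ⟨_, rfl⟩
      rw [← hd] at hE4
      rcases eq_or_lt_of_le (show 1 ≤ c by linarith) with hc1 | hc1
      · rw [← hc1] at hE4 hc hd
        have h2 : d = 0 := by
          have : κ * d = 0 := by rw [hE4]; ring
          exact (mul_eq_zero.1 this).resolve_left (by linarith)
        have h3 : κ = 2 * l - 2 := by linarith
        have : L = 2 * l - 2 := by rw [hc, h3]; ring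
        have h4 : 0 < (l - 1) * (l - 2) := mul_pos (by linarith) (by linarith)
        linarith
      · have hd0 : 0 < d := by
          by_contra hcc
          have h2 : κ * d ≤ 0 := mul_nonpos_of_nonneg_of_nonpos (by linarith) (by linarith)
          have h3 : 0 < l * (c - 1) := mul_pos (by linarith) (by linarith)
          linarith
        have hκd : κ = l + 1 + c * (l - 3) + d := by linarith
        rcases eq_or_lt_of_le (show 1 ≤ d by linarith) with hd1 | hd1
        · rw [← hd1] at hE4 hκd
          -- κ = l (c-1), κ c = l (l-1)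
          have h2 : c * (c - 1) = l - 1 := by
            have hl0 : l ≠ 0 := by linarith
            apply mul_left_cancel₀ hl0
            linear_combination (-c) * hE4 - hc + hL
          have h3 : 2 * l + 2 ≤ 3 * c := by linarith
          have h4 : 4 * (c - 1) ≤ c * (c - 1) :=
            mul_le_mul_of_nonneg_right (by linarith) (by linarith)
          linarith
        · have h2 : 2 * κ ≤ l * (c - 1) := by
            rw [← hE4]
            have := mul_le_mul_of_nonneg_left (show (2:ℤ) ≤ d by linarith)
              (show (0:ℤ) ≤ κ by linarith)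
            linarith
          have h3 : 0 ≤ c * (l - 6) := mul_nonneg (by linarith) (by linarith)
          have h4 : 2 * κ = 2 * l + 2 + 2 * (c * l) - 6 * c + 2 * d := by rw [hκd]; ring
          have h5 : l * (c - 1) = c * l - l := by ring
          have h6 : c * (l - 6) = c * l - 6 * c := by ring
          linarith
    · -- w ≥ 1
      have hw1 : 1 ≤ w := h0
      -- first bound
      have hb0 : l * w * x ≤ κ * (κ - l) := by
        have h2 : l * x * (w * (κ - 1)) ≤ κ * (κ - 1) * (κ - l) := by
          rw [← hE]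
          have : 0 ≤ l * x * (l - 1) :=
            mul_nonneg (mul_nonneg (by linarith) hx.le) (by linarith)
          have e : l * x * (w * (κ - 1) + (l - 1)) = l * x * (w * (κ - 1)) + l * x * (l - 1) := by
            ring
          rw [e]
          linarith
        have h3 : (κ - 1) * (l * w * x) ≤ (κ - 1) * (κ * (κ - l)) := by linarith
        exact le_of_mul_le_mul_left h3 (by linarith)
      have hx2 : κ * (l - 3) - (l - 4) ≤ x := by rw [hw] at hw2; linarith
      have hlw : 0 < l * w := mul_pos (by linarith) h0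
      have hb1 : l * w * (κ * (l - 3) - (l - 4)) ≤ κ * (κ - l) :=
        le_trans (mul_le_mul_of_nonneg_left hx2 hlw.le) hb0
      have hb2 : l * w * (l - 4) + l < κ := by
        by_contra hc
        have h2 : κ ≤ l * w * (l - 4) + l := by linarith
        have h3 : κ * (κ - l) ≤ κ * (l * w * (l - 4)) :=
          mul_le_mul_of_nonneg_left (by linarith) (by linarith)
        have h4 : l * w * (l - 4) < l * w * κ := mul_lt_mul_of_pos_left (by linarith) hlw
        clear * - hb1 h3 h4
        linarith
      have hb3 : w * (l * (l - 3) - 1) + l < κ := by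
        by_contra hc
        have h2 : κ ≤ w * (l * (l - 3) - 1) + l := by linarith
        have h3 : κ * (κ - l) ≤ κ * (w * (l * (l - 3) - 1)) :=
          mul_le_mul_of_nonneg_left (by linarith) (by linarith)
        -- l w (l-4) ≥ κ w would be needed
        have h4 : w * κ ≤ w * (l * (l - 4)) := by
          clear * - hb1 h3
          linarith
        have h5 : κ ≤ l * (l - 4) := le_of_mul_le_mul_left h4 h0
        have h6 : l * (l - 4) * 1 ≤ l * (l - 4) * w :=
          mul_le_mul_of_nonneg_left hw1 (mul_nonneg (by linarith) (by linarith))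
        clear * - h5 h6 hb2 hl
        linarith
      have hsmall : -κ < (l - w) * (l - w - 1) ∧ (l - w) * (l - w - 1) < κ := by
        constructor
        · have h2 := sq_nonneg (2 * (l - w) - 1)
          have e : (2 * (l - w) - 1) ^ 2 = 4 * ((l - w) * (l - w - 1)) + 1 := by ring
          rw [e] at h2
          linarith
        · rcases le_or_gt w l with h2 | h2
          · have h5 := mul_nonneg (show (0:ℤ) ≤ w - 1 by linarith) (show (0:ℤ) ≤ l - w by linarith)
            have h6 := mul_nonneg (show (0:ℤ) ≤ w - 1 by linarith) (show (0:ℤ) ≤ l - 6 by linarith)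
            clear * - h5 h6 hb3 hl hw1 h2
            nlinarith
          · clear * - hb3 hl hw1 h2 hw2
            nlinarith [mul_nonneg (show (0:ℤ) ≤ w - l by linarith)
              (show (0:ℤ) ≤ 2 * l - 4 - w by linarith),
              mul_nonneg (show (0:ℤ) ≤ w - 1 by linarith) (show (0:ℤ) ≤ l - 6 by linarith)]
      have hz : (l - w) * (l - w - 1) = 0 := by
        obtain ⟨c, hc⟩ := hdiv2
        rw [hc] at hsmall ⊢
        have h2 : c = 0 := by
          by_contra hc0
          rcases lt_or_gt_of_ne hc0 with h3 | h3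
          · have h4 : κ * c ≤ κ * (-1) :=
              mul_le_mul_of_nonneg_left (show c ≤ -1 by linarith) (by linarith)
            linarith [hsmall.1]
          · have h4 : κ * 1 ≤ κ * c :=
              mul_le_mul_of_nonneg_left (show (1:ℤ) ≤ c by linarith) (by linarith)
            linarith [hsmall.2]
        rw [h2, mul_zero]
      rcases mul_eq_zero.1 hz with h2 | h2
      · -- w = l
        have hwl : w = l := by linarith
        have hxl : x = κ * (l - 3) := by rw [hw] at hwl; linarith
        rw [hwl, hxl] at hE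
        have hκ0 : κ ≠ 0 := by linarith
        have h3 : l * (l - 3) * (l * (κ - 1) + (l - 1)) = (κ - 1) * (κ - l) := by
          apply mul_left_cancel₀ hκ0
          linear_combination hE
        have h4 : κ * ((l ^ 3 - 3 * l ^ 2 + l + 1) - κ) = l * (l - 2) := by
          linear_combination h3
        have h5 : 0 < (l ^ 3 - 3 * l ^ 2 + l + 1) - κ := by
          by_contra hc
          have : κ * ((l ^ 3 - 3 * l ^ 2 + l + 1) - κ) ≤ 0 :=
            mul_nonpos_of_nonneg_of_nonpos (by linarith) (by linarith)
          have : 0 < l * (l - 2) := mul_pos (by linarith) (by linarith)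
          linarith
        have h6 : κ ≤ l * (l - 2) := by
          have := mul_le_mul_of_nonneg_left
            (show (1:ℤ) ≤ (l ^ 3 - 3 * l ^ 2 + l + 1) - κ from h5) (show (0:ℤ) ≤ κ by linarith)
          linarith
        have h7 : l - 2 ≤ (l ^ 3 - 3 * l ^ 2 + l + 1) - κ := by
          have : 0 ≤ l ^ 2 * (l - 4) := mul_nonneg (sq_nonneg l) (by linarith)
          clear * - this h6 hl
          linarith
        have h8 := mul_le_mul_of_nonneg_left h7 (show (0:ℤ) ≤ κ by linarith)
        have h9 := mul_lt_mul_of_pos_right hκ (show (0:ℤ) < l - 2 by linarith)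
        linarith
      · -- w = l - 1
        have hwl : w = l - 1 := by linarith
        have hxl : x = κ * (l - 3) + 1 := by rw [hw] at hwl; linarith
        rw [hwl, hxl] at hE
        have hκ0 : κ ≠ 0 := by linarith
        have h3 : l * (l - 1) * (κ * (l - 3) + 1) = (κ - 1) * (κ - l) := by
          apply mul_left_cancel₀ hκ0
          linear_combination hE
        have h4 : κ * (κ - (l * (l - 1) * (l - 3) + l + 1)) = l * (l - 2) := by
          linear_combination - h3
        have h5 : 0 < κ - (l * (l - 1) * (l - 3) + l + 1) := by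
          by_contra hc
          have : κ * (κ - (l * (l - 1) * (l - 3) + l + 1)) ≤ 0 :=
            mul_nonpos_of_nonneg_of_nonpos (by linarith) (by linarith)
          have : 0 < l * (l - 2) := mul_pos (by linarith) (by linarith)
          linarith
        have h6 : κ ≤ l * (l - 2) := by
          have := mul_le_mul_of_nonneg_left
            (show (1:ℤ) ≤ κ - (l * (l - 1) * (l - 3) + l + 1) from h5)
            (show (0:ℤ) ≤ κ by linarith)
          linarith
        have h7 : l * (l - 1) * 3 ≤ l * (l - 1) * (l - 3) :=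
          mul_le_mul_of_nonneg_left (by linarith) (mul_nonneg (by linarith) (by linarith))
        have h8 := sq_nonneg l
        clear * - h5 h6 h7 h8 hl
        nlinarith
  · -- u = 0
    rw [hu0] at huw
    have hw3 : w = 2 * l - 3 := by
      have h2 : L * (w - (2 * l - 3)) = 0 := by linarith
      have := (mul_eq_zero.1 h2).resolve_left (by linarith)
      linarith
    have hxl : x = (κ - 1) * (l - 3) := by rw [hw] at hw3; linarith
    rw [hw3, hxl] at hE
    have hκ0 : κ - 1 ≠ 0 := by linarith
    have h3 : l * (l - 3) * ((2 * l - 3) * (κ - 1) + (l - 1)) = κ * (κ - l) := by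
      apply mul_left_cancel₀ hκ0
      linear_combination hE
    have h4 : (κ - 1) * ((κ - 1) - (l * (l - 3) * (2 * l - 3) + l - 2)) =
        (l - 1) * (l ^ 2 - 3 * l + 1) := by
      linear_combination - h3
    have hpos : 0 < (l - 1) * (l ^ 2 - 3 * l + 1) := by
      apply mul_pos (by linarith)
      have : l * 6 ≤ l * l := mul_le_mul_of_nonneg_left hl (by linarith)
      clear * - this hl
      linarith
    have h5 : 0 < (κ - 1) - (l * (l - 3) * (2 * l - 3) + l - 2) := by
      by_contra hc
      have : (κ - 1) * ((κ - 1) - (l * (l - 3) * (2 * l - 3) + l - 2)) ≤ 0 :=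
        mul_nonpos_of_nonneg_of_nonpos (by linarith) (by linarith)
      linarith
    have h6 : κ - 1 ≤ (l - 1) * (l ^ 2 - 3 * l + 1) := by
      have := mul_le_mul_of_nonneg_left
        (show (1:ℤ) ≤ (κ - 1) - (l * (l - 3) * (2 * l - 3) + l - 2) from h5)
        (show (0:ℤ) ≤ κ - 1 by linarith)
      linarith
    have h7 := mul_nonneg (show (0:ℤ) ≤ l - 6 by linarith) (sq_nonneg l)
    have h8 := sq_nonneg l
    clear * - h5 h6 h7 h8 hl
    nlinarith
  · -- u = 1
    have hu2 : u = 1 := by linarith
    rw [hu2] at huw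
    obtain ⟨m, hm⟩ : ∃ m, m = w - (2 * l - 3) := ⟨_, rfl⟩
    have hκm : κ = L * m + 1 := by rw [hm]; linarith
    have hwm : w = 2 * l - 3 + m := by linarith
    have hxm : x = (l - 3) * (L * m) - m := by
      have : x = κ * (l - 3) + l - w := by rw [hw]; ring
      rw [this, hκm, hwm]; ring
    rw [hwm, hxm, hκm] at hE
    -- cancel L m
    have hLm : L * m ≠ 0 := by linarith
    have hm0 : m ≠ 0 := fun h => hLm (by rw [h, mul_zero])
    have h3 : (L * (l - 3) - 1) * ((2 * l - 3 + m) * (L * m) + (l - 1)) =
        (l - 1) * ((L * m + 1) * (L * m + 1 - l)) := by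
      have hl0 : l ≠ 0 := by linarith
      apply mul_left_cancel₀ (mul_ne_zero hl0 hm0)
      linear_combination hE + m * (L * m + 1) * (L * m + 1 - l) * hL
    have h4 : (l - 1) * (2 - l) = L * ((l - 3) * ((2 * l - 3 + m) * (L * m) + (l - 1)) -
        (2 * l - 3 + m) * m - (l - 1) * (L * m ^ 2 + (2 - l) * m)) := by
      linear_combination - h3
    rw [hL] at h4
    have h5 : 2 - l = l * ((l - 3) * ((2 * l - 3 + m) * (l * (l - 1) * m) + (l - 1)) -
        (2 * l - 3 + m) * m - (l - 1) * (l * (l - 1) * m ^ 2 + (2 - l) * m)) := by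
      have hl1 : l - 1 ≠ 0 := by linarith
      apply mul_left_cancel₀ hl1
      linear_combination h4
    have h6 : l ∣ 2 - l := ⟨_, h5⟩
    have h7 : l ∣ 2 := by
      have := dvd_add (dvd_refl l) h6
      simpa using this
    have h8 := Int.le_of_dvd (by norm_num) h7
    linarith

end Pool.Agent.H39.PMD
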