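import Pool.Agent.H39.PMD.NT

set_option autoImplicit false

namespace Pool.Agent.H39.PMD

/-- bounded search for integer roots of `A κ^2 - B κ + C` -/
def chkb (A B C m : ℕ) : Bool :=
  (List.range (B / A + 1)).all fun κ => !(decide (m ≤ κ) && decide (A * κ ^ 2 + C = B * κ))

theorem chkb_spec {A B C m : ℕ} (h : chkb A B C m = true) (hA : 0 < A) {κ : ℕ}
    (hκ : m ≤ κ) (hm : 0 < κ) : A * κ ^ 2 + C ≠ B * κ := by
  intro he
  have h1 : κ ≤ B / A := by
    rw [Nat.le_div_iff_mul_le hA]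
    have : κ * (κ * A) ≤ κ * B := by nlinarith
    exact Nat.le_of_mul_le_mul_left this hm
  unfold chkb at h
  rw [List.all_eq_true] at h
  have h2 := h κ (List.mem_range.2 (by omega))
  simp [hκ, he] at h2

theorem chk3 : ∀ y < 9, 1 ≤ y →
    chkb (y ^ 2 + 12) (2 * y ^ 2 + 18 * y + 36) (y ^ 2 + 6 * y) 4 = true := by
  decide +kernel

theorem chk4 : ∀ y < 32, 1 ≤ y →
    chkb (y ^ 2 + 36 - 12 * y) (2 * y ^ 2 + 36 * y + 144) (y ^ 2 + 12 * y) 5 = true := by
  decide +kernel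

theorem chk5 : ∀ y < 75, 1 ≤ y →
    chkb (y ^ 2 + 80 - 40 * y) (2 * y ^ 2 + 60 * y + 400) (y ^ 2 + 20 * y) 6 = true := by
  decide +kernel

theorem ypos {l κ x y : ℤ} (hl : 3 ≤ l) (hκ : l < κ) (hx : 0 < x)
    (h : (κ - 1) * y = l * (l - 1) * x) : 1 ≤ y := by
  by_contra hc
  have h1 : y ≤ 0 := by linarith
  have h2 : (κ - 1) * y ≤ 0 := mul_nonpos_of_nonneg_of_nonpos (by linarith) h1
  have h3 : 0 < l * (l - 1) * x := mul_pos (mul_pos (by linarith) (by linarith)) hx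
  linarith

theorem nt3 {κ x : ℤ} (hκ : 3 < κ) (hx : 0 < x)
    (heq : (κ - 1) * (3 * x ^ 2 - 3 * (κ * (3 - 3) + 3) * x + κ * (κ - 3)) = 3 * (3 - 1) * x) :
    False := by
  obtain ⟨y, hy⟩ : ∃ y, y = 3 * x ^ 2 - 3 * (κ * (3 - 3) + 3) * x + κ * (κ - 3) := ⟨_, rfl⟩
  rw [← hy] at heq
  have hq := quad_y hy heq (by norm_num)
  have hy1 : 1 ≤ y := ypos (le_refl _) hκ hx heq
  clear hy heq hx x
  have hq' : κ * ((y ^ 2 + 12) * κ - (2 * y ^ 2 + 18 * y + 36)) = - (y ^ 2 + 6 * y) := by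
    linear_combination hq
  have h1 : (y ^ 2 + 12) * κ ≤ 2 * y ^ 2 + 18 * y + 36 := by
    by_contra hc
    have h2 : 0 ≤ κ * ((y ^ 2 + 12) * κ - (2 * y ^ 2 + 18 * y + 36)) :=
      mul_nonneg (by linarith) (by linarith)
    nlinarith
  have h2 : y < 9 := by
    by_contra hc
    have h3 : (y ^ 2 + 12) * 4 ≤ (y ^ 2 + 12) * κ :=
      mul_le_mul_of_nonneg_left (by linarith) (by positivity)
    nlinarith
  have h4 : 0 ≤ κ := by linarith
  have h5 : 0 ≤ y := by linarith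
  lift κ to ℕ using h4
  lift y to ℕ using h5
  refine chkb_spec (chk3 y (by exact_mod_cast h2) (by exact_mod_cast hy1)) (by positivity)
    (by exact_mod_cast (show (4:ℤ) ≤ κ by linarith)) (by omega) ?_
  zify
  linear_combination hq

theorem nt4 {κ x : ℤ} (hκ : 4 < κ) (hx : 0 < x)
    (heq : (κ - 1) * (4 * x ^ 2 - 4 * (κ * (4 - 3) + 4) * x + κ * (κ - 4)) = 4 * (4 - 1) * x) :
    False := by
  obtain ⟨y, hy⟩ : ∃ y, y = 4 * x ^ 2 - 4 * (κ * (4 - 3) + 4) * x + κ * (κ - 4) := ⟨_, rfl⟩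
  rw [← hy] at heq
  have hq := quad_y hy heq (by norm_num)
  have hy1 : 1 ≤ y := ypos (by norm_num) hκ hx heq
  clear hy heq hx x
  have hq' : κ * ((y - 6) ^ 2 * κ - (2 * y ^ 2 + 36 * y + 144)) = - (y ^ 2 + 12 * y) := by
    linear_combination hq
  have h1 : (y - 6) ^ 2 * κ < 2 * y ^ 2 + 36 * y + 144 := by
    by_contra hc
    have h2 : 0 ≤ κ * ((y - 6) ^ 2 * κ - (2 * y ^ 2 + 36 * y + 144)) :=
      mul_nonneg (by linarith) (by linarith)
    nlinarith
  have hy6 : y ≠ 6 := by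
    rintro rfl
    omega
  have h0 : 1 ≤ (y - 6) ^ 2 := by
    have : 0 < (y - 6) ^ 2 := by
      have : y - 6 ≠ 0 := by omega
      positivity
    omega
  have h2 : y < 32 := by
    by_contra hc
    have h3 : (y - 6) ^ 2 * 5 ≤ (y - 6) ^ 2 * κ :=
      mul_le_mul_of_nonneg_left (by linarith) (by positivity)
    nlinarith
  have h4 : 0 ≤ κ := by linarith
  have h5 : 0 ≤ y := by linarith
  lift κ to ℕ using h4
  lift y to ℕ using h5
  have h6 : 12 * y ≤ y ^ 2 + 36 := by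
    zify
    nlinarith
  have h7 : 0 < y ^ 2 + 36 - 12 * y := by
    zify [h6]
    nlinarith
  refine chkb_spec (chk4 y (by exact_mod_cast h2) (by exact_mod_cast hy1)) h7
    (by exact_mod_cast (show (5:ℤ) ≤ κ by linarith)) (by omega) ?_
  zify [h6]
  linear_combination hq

theorem nt5 {κ x : ℤ} (hκ : 5 < κ) (hx : 0 < x)
    (heq : (κ - 1) * (5 * x ^ 2 - 5 * (κ * (5 - 3) + 5) * x + κ * (κ - 5)) = 5 * (5 - 1) * x) :
    False := by
  obtain ⟨y, hy⟩ : ∃ y, y = 5 * x ^ 2 - 5 * (κ * (5 - 3) + 5) * x + κ * (κ - 5) := ⟨_, rfl⟩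
  rw [← hy] at heq
  have hq := quad_y hy heq (by norm_num)
  have hy1 : 1 ≤ y := ypos (by norm_num) hκ hx heq
  clear hy heq hx x
  have hq' : κ * ((y ^ 2 - 40 * y + 80) * κ - (2 * y ^ 2 + 60 * y + 400)) = - (y ^ 2 + 20 * y) := by
    linear_combination hq
  have hC : 1 ≤ y ^ 2 - 40 * y + 80 := by
    by_contra hc
    have h2 : (y ^ 2 - 40 * y + 80) * κ ^ 2 ≤ 0 :=
      mul_nonpos_of_nonpos_of_nonneg (by linarith) (sq_nonneg κ)
    have h3 : (2 * y ^ 2 + 60 * y + 400) * 1 ≤ (2 * y ^ 2 + 60 * y + 400) * κ :=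
      mul_le_mul_of_nonneg_left (by linarith) (by positivity)
    nlinarith
  have h1 : (y ^ 2 - 40 * y + 80) * κ < 2 * y ^ 2 + 60 * y + 400 := by
    by_contra hc
    have h2 : 0 ≤ κ * ((y ^ 2 - 40 * y + 80) * κ - (2 * y ^ 2 + 60 * y + 400)) :=
      mul_nonneg (by linarith) (by linarith)
    nlinarith
  have h2 : y < 75 := by
    by_contra hc
    have h3 : (y ^ 2 - 40 * y + 80) * 6 ≤ (y ^ 2 - 40 * y + 80) * κ :=
      mul_le_mul_of_nonneg_left (by linarith) (by linarith)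
    nlinarith
  have h4 : 0 ≤ κ := by linarith
  have h5 : 0 ≤ y := by linarith
  lift κ to ℕ using h4
  lift y to ℕ using h5
  have h6 : 40 * y ≤ y ^ 2 + 80 := by
    zify
    linarith
  have h7 : 0 < y ^ 2 + 80 - 40 * y := by
    zify [h6]
    linarith
  refine chkb_spec (chk5 y (by exact_mod_cast h2) (by exact_mod_cast hy1)) h7
    (by exact_mod_cast (show (6:ℤ) ≤ κ by linarith)) (by omega) ?_
  zify [h6]
  linear_combination hq

/-- the arithmetic of the parameters of a rank 4 PMD with `c(0,3) = 0` -/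
theorem nt_main {l κ k lam v r b : ℤ} (hl : 2 ≤ l) (hk : k = 1 + κ * (l - 1)) (hκ : l ≤ κ)
    (hlam : 2 ≤ lam) (h1 : lam * (k - l) = v - l) (h2 : r * (k - 1) = lam * (v - 1))
    (h3 : b * k = v * r) (h4 : k * (k - 1) * (lam - 1) = l * (k * (r - 1) - (b - 1))) :
    (l = 2 ∧ κ = 2 ∧ (lam = 2 ∨ lam = 3)) ∨ (3 ≤ l ∧ κ = l ∧ (lam = l ∨ lam = k)) := by
  have hl1 : l - 1 ≠ 0 := by linarith
  have hκ1 : κ - 1 ≠ 0 := by linarith
  have hlam1 : lam - 1 ≠ 0 := by linarith
  have hk0 : k ≠ 0 := by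
    have : 0 ≤ κ * (l - 1) := mul_nonneg (by linarith) (by linarith)
    linarith
  have hκ0 : κ ≠ 0 := by linarith
  have hv : v = 1 + (1 + lam * (κ - 1)) * (l - 1) := by
    linear_combination - h1 + lam * hk
  have hr : r * κ = lam * (1 + lam * (κ - 1)) := by
    apply mul_left_cancel₀ hl1
    have : (l - 1) * (r * κ) = r * (k - 1) := by rw [hk]; ring
    rw [this, h2, hv]; ring
  -- the quadratic equation for lam
  have hQ : l * (κ - 1) * lam ^ 2 - l * (k * κ - 1) * lam + κ ^ 2 * k * (l - 1) = 0 := by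
    have h5 : (-(l - 1) * (κ - 1) * (lam - 1)) *
        (l * (κ - 1) * lam ^ 2 - l * (k * κ - 1) * lam + κ ^ 2 * k * (l - 1)) = 0 := by
      have h6 : (k * κ) * (k * (k - 1) * (lam - 1)) =
          (k * κ) * (l * (k * (r - 1) - (b - 1))) := by rw [h4]
      have h7 : (k * κ) * (l * (k * (r - 1) - (b - 1))) =
          l * (k ^ 2 * (r * κ - κ) - ((b * k) * κ - k * κ)) := by ring
      have h8 : (b * k) * κ = v * (lam * (1 + lam * (κ - 1))) := by
        rw [h3, ← hr]; ring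
      rw [h7, h8, hr, hv] at h6
      rw [hk] at h6 ⊢
      linear_combination (-1) * h6
    have hne : (-(l - 1) * (κ - 1) * (lam - 1)) ≠ 0 :=
      mul_ne_zero (mul_ne_zero (neg_ne_zero.2 hl1) hκ1) hlam1
    exact (mul_eq_zero.1 h5).resolve_left hne
  have hdiv : κ ∣ lam * (lam - 1) := by
    have : lam * (lam - 1) = κ * (lam ^ 2 - r) := by linear_combination hr
    rw [this]; exact dvd_mul_right _ _
  rcases eq_or_lt_of_le hl with hl2 | hl2
  · -- l = 2
    left
    subst hl2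
    have hQ2 : (2 * (κ - 1) * lam - (κ ^ 2 + κ - 1)) ^ 2 =
        - κ ^ 4 + 2 * κ ^ 3 + κ ^ 2 - 2 * κ + 1 := by
      rw [hk] at hQ
      linear_combination 2 * (κ - 1) * hQ
    have hκ2 : κ = 2 := by
      by_contra hne
      have h5 : 3 ≤ κ := by omega
      have h6 := sq_nonneg (2 * (κ - 1) * lam - (κ ^ 2 + κ - 1))
      rw [hQ2] at h6
      have h7 : - κ ^ 4 + 2 * κ ^ 3 + κ ^ 2 - 2 * κ + 1 = - (κ * (κ - 1)) * ((κ + 1) * (κ - 2)) + 1 := by
        ring
      have h8 : 6 ≤ κ * (κ - 1) := by nlinarith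
      have h9 : 4 ≤ (κ + 1) * (κ - 2) := by nlinarith
      nlinarith
    subst hκ2
    refine ⟨rfl, rfl, ?_⟩
    rw [hk] at hQ
    have : (lam - 2) * (lam - 3) = 0 := by linarith
    rcases mul_eq_zero.1 this with h | h
    · left; linarith
    · right; linarith
  right
  have hl3 : 3 ≤ l := by omega
  refine ⟨hl3, ?_⟩
  obtain ⟨x, hx⟩ : ∃ x, x = lam - κ := ⟨_, rfl⟩
  have hlx : lam = x + κ := by linarith
  have hE : (κ - 1) * (l * x ^ 2 - l * (κ * (l - 3) + l) * x + κ * (κ - l)) = l * (l - 1) * x := by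
    rw [hk, hlx] at hQ
    linear_combination hQ
  have hdx : κ ∣ x * (x - 1) := by
    have : x * (x - 1) = lam * (lam - 1) + κ * (κ + 1 - 2 * lam) := by rw [hx]; ring
    rw [this]
    exact dvd_add hdiv (dvd_mul_right _ _)
  rcases eq_or_lt_of_le hκ with hκl | hκl
  · -- κ = l
    subst hκl
    refine ⟨rfl, ?_⟩
    have h5 : x * (x - (l - 1) ^ 2) = 0 := by
      have h6 : (l - 1) * l * (x * (x - (l - 1) ^ 2)) = 0 := by
        linear_combination hE
      exact (mul_eq_zero.1 h6).resolve_left (mul_ne_zero hl1 (by linarith))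
    rcases mul_eq_zero.1 h5 with h6 | h6
    · left; linarith
    · right
      rw [hk]
      linear_combination hlx + h6
  · exfalso
    have hx0 : 0 < x := by
      by_contra hc
      have hx1 : x ≤ 0 := by linarith
      have h5 : 0 ≤ l * x ^ 2 := mul_nonneg (by linarith) (sq_nonneg x)
      have h6 : 0 ≤ l * (κ * (l - 3) + l) * (-x) := by
        apply mul_nonneg _ (by linarith)
        apply mul_nonneg (by linarith)
        have : 0 ≤ κ * (l - 3) := mul_nonneg (by linarith) (by linarith)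
        linarith
      have h7 : 0 < κ * (κ - l) := mul_pos (by linarith) (by linarith)
      have h8 : 0 < (κ - 1) * (l * x ^ 2 - l * (κ * (l - 3) + l) * x + κ * (κ - l)) := by
        apply mul_pos (by linarith)
        linarith
      have h9 : 0 ≤ l * (l - 1) * (-x) :=
        mul_nonneg (mul_nonneg (by linarith) (by linarith)) (by linarith)
      linarith
    have : l = 3 ∨ l = 4 ∨ l = 5 ∨ 6 ≤ l := by omega
    rcases this with h | h | h | h
    · subst h; exact nt3 hκl hx0 hE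
    · subst h; exact nt4 hκl hx0 hE
    · subst h; exact nt5 hκl hx0 hE
    · exact nt6 h hκl hdx hx0 hE

end Pool.Agent.H39.PMD
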