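import Pool.Agent.H39.PMD.Geo

set_option autoImplicit false

namespace Pool.Agent.H39.PMD

/-- all planes are projective planes, lines have at least three points, and there are at least
two planes -/
structure PGeo {P : Type} (G : Geo P) : Prop where
  meet : ∀ B, G.IsPl B → ∀ p q r s, p ∈ B → q ∈ B → r ∈ B → s ∈ B → p ≠ q → r ≠ s →
    (G.ln p q ∩ G.ln r s).Nonempty
  three : ∀ a b, a ≠ b → ∃ c ∈ G.ln a b, c ≠ a ∧ c ≠ b
  out : ∀ p q r, ∃ s, s ∉ G.pl p q r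

namespace PGeo

variable {P : Type} {G : Geo P} (A : PGeo G)

include A

theorem meet' {a b c p q r s : P} (hp : p ∈ G.pl a b c) (hq : q ∈ G.pl a b c)
    (hr : r ∈ G.pl a b c) (hs : s ∈ G.pl a b c) (hpq : p ≠ q) (hrs : r ≠ s) :
    ∃ x, x ∈ G.ln p q ∧ x ∈ G.ln r s := by
  by_cases h : r ∈ G.ln p q
  · exact ⟨r, h, G.ln_left _ _⟩
  · have hB : G.IsPl (G.pl a b c) := by
      rw [← G.pl_eq hp hq hr hpq h]
      exact G.isPl hpq h
    exact A.meet _ hB p q r s hp hq hr hs hpq hrs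

end PGeo

/-- a hyperplane: a proper line-closed set which meets each line -/
structure Hyp {P : Type} (G : Geo P) (H : Set P) : Prop where
  closed : ∀ a b, a ∈ H → b ∈ H → G.ln a b ⊆ H
  meets : ∀ a b, a ≠ b → ∃ x, x ∈ G.ln a b ∧ x ∈ H
  proper : ∃ o, o ∉ H

theorem PGeo.exists_hyp {P : Type} [Finite P] [Nonempty P] {G : Geo P} (A : PGeo G) :
    ∃ H, Hyp G H := by
  classical
  obtain ⟨o⟩ := ‹Nonempty P›
  obtain ⟨H, hH⟩ := Set.Finite.exists_maximal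
    (s := {H : Set P | (∀ a b, a ∈ H → b ∈ H → G.ln a b ⊆ H) ∧ ∃ o, o ∉ H}) (Set.toFinite _)
    ⟨∅, by simp, o, by simp⟩
  obtain ⟨⟨hcl, hpr⟩, hmax⟩ := hH
  refine ⟨H, hcl, ?_, hpr⟩
  intro a b hab
  by_contra hcon
  push Not at hcon
  have haH : a ∉ H := hcon a (G.ln_left _ _)
  -- the span of `H` and `a`
  let H' : Set P := {p | p = a ∨ ∃ h ∈ H, p ∈ G.ln a h}
  have haH' : a ∈ H' := Or.inl rfl
  have hcl' : ∀ p q, p ∈ H' → q ∈ H' → G.ln p q ⊆ H' := by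
    -- lines through `a`
    have key : ∀ q, q ∈ H' → G.ln a q ⊆ H' := by
      rintro q (rfl | ⟨h, hh, hq⟩) r hr
      · rw [G.ln_self] at hr
        left; exact hr
      · by_cases hqa : q = a
        · rw [hqa, G.ln_self] at hr
          left; exact hr
        · right
          refine ⟨h, hh, ?_⟩
          rwa [G.ln_eq (G.ln_left a h) hq (Ne.symm hqa)] at hr
    intro p q hp hq r hr
    by_cases hpa : p = a
    · subst hpa; exact key q hq hr
    by_cases hqa : q = a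
    · subst hqa
      rw [G.ln_comm] at hr
      exact key p hp hr
    by_cases hra : r = a
    · rw [hra]; exact haH'
    obtain ⟨h1, hh1, hp1⟩ := hp.resolve_left hpa
    obtain ⟨h2, hh2, hq2⟩ := hq.resolve_left hqa
    by_cases h12 : h1 = h2
    · subst h12
      by_cases hpq : p = q
      · rw [hpq, G.ln_self] at hr
        rw [hr]
        exact hq
      · right
        refine ⟨h1, hh1, ?_⟩
        rwa [G.ln_eq hp1 hq2 hpq] at hr
    have e1 : p ∈ G.pl a h1 h2 := G.pl_ln (G.pl_1 _ _ _) (G.pl_2 _ _ _) hp1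
    have e2 : q ∈ G.pl a h1 h2 := G.pl_ln (G.pl_1 _ _ _) (G.pl_3 _ _ _) hq2
    have e3 : r ∈ G.pl a h1 h2 := G.pl_ln e1 e2 hr
    obtain ⟨h, h3, h4⟩ := A.meet' (G.pl_1 a h1 h2) e3 (G.pl_2 a h1 h2) (G.pl_3 a h1 h2)
      (Ne.symm hra) h12
    have hh : h ∈ H := hcl h1 h2 hh1 hh2 h4
    right
    refine ⟨h, hh, ?_⟩
    have hah : a ≠ h := by rintro rfl; exact haH hh
    rw [G.ln_eq (G.ln_left a r) h3 hah]
    exact G.ln_right _ _
  have hsub : H ⊆ H' := fun h hh => Or.inr ⟨h, hh, G.ln_right _ _⟩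
  have hbH' : b ∈ H' := by
    by_contra hb
    have := hmax ⟨hcl', b, hb⟩ hsub
    exact haH (this haH')
  obtain ⟨h, hh, hb⟩ := hbH'.resolve_left hab.symm
  apply hcon h _ hh
  rw [G.ln_eq (G.ln_left a h) hb hab]
  exact G.ln_right _ _

namespace Hyp

variable {P : Type} {G : Geo P} {H : Set P} (Y : Hyp G H)

open Classical in
/-- the point at infinity of the line `ab` -/
noncomputable def dir (Y : Hyp G H) (a b : P) : P :=
  if h : a ≠ b then Classical.choose (Y.meets a b h) else a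

theorem dir_ln {a b : P} (h : a ≠ b) : Y.dir a b ∈ G.ln a b := by
  unfold dir
  rw [dif_pos h]
  exact (Classical.choose_spec (Y.meets a b h)).1

theorem dir_mem {a b : P} (h : a ≠ b) : Y.dir a b ∈ H := by
  unfold dir
  rw [dif_pos h]
  exact (Classical.choose_spec (Y.meets a b h)).2

include Y

theorem uniqH {a b x y : P} (ha : a ∉ H) (hx : x ∈ G.ln a b) (hxH : x ∈ H) (hy : y ∈ G.ln a b)
    (hyH : y ∈ H) : x = y := by
  by_contra hne
  apply ha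
  have := G.ln_eq hx hy hne
  exact Y.closed x y hxH hyH (this ▸ G.ln_left a b)

theorem eq_dir {a b x : P} (ha : a ∉ H) (hx : x ∈ G.ln a b) (hxH : x ∈ H) : x = Y.dir a b := by
  by_cases hab : a = b
  · subst hab
    rw [G.ln_self] at hx
    exact absurd (hx ▸ hxH) ha
  exact Y.uniqH ha hx hxH (Y.dir_ln hab) (Y.dir_mem hab)

theorem dir_comm {a b : P} (ha : a ∉ H) (hab : a ≠ b) : Y.dir a b = Y.dir b a := by
  refine (Y.eq_dir ha ?_ (Y.dir_mem hab.symm)).symm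
  rw [G.ln_comm]
  exact Y.dir_ln hab.symm

theorem ln_dir {a b : P} (ha : a ∉ H) (hab : a ≠ b) : G.ln a (Y.dir a b) = G.ln a b := by
  apply G.ln_eq (G.ln_left _ _) (Y.dir_ln hab)
  intro h
  exact ha (h ▸ Y.dir_mem hab)

theorem ln_dir' {a b : P} (hb : b ∉ H) (hab : a ≠ b) : G.ln b (Y.dir a b) = G.ln a b := by
  apply G.ln_eq (G.ln_right _ _) (Y.dir_ln hab)
  intro h
  exact hb (h ▸ Y.dir_mem hab)

theorem ne_dir {a x y : P} (ha : a ∉ H) (hxy : x ≠ y) : a ≠ Y.dir x y := by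
  intro h
  exact ha (h ▸ Y.dir_mem hxy)

/-- a point outside of `H` and of the plane -/
theorem exists_aff (A : PGeo G) {p q r a : P} (ha : a ∈ G.pl p q r) (haH : a ∉ H) :
    ∃ e, e ∉ H ∧ e ∉ G.pl p q r := by
  obtain ⟨s, hs⟩ := A.out p q r
  by_cases hsH : s ∈ H
  · have has : a ≠ s := by rintro rfl; exact haH hsH
    obtain ⟨c, hc, hca, hcs⟩ := A.three a s has
    refine ⟨c, ?_, ?_⟩
    · intro hcH
      apply haH
      have := G.ln_eq hc (G.ln_right a s) hcs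
      exact Y.closed c s hcH hsH (this ▸ G.ln_left a s)
    · intro hcp
      apply hs
      have := G.ln_eq (G.ln_left a s) hc (Ne.symm hca)
      exact G.pl_ln ha hcp (this ▸ G.ln_right a s)
  · exact ⟨s, hsH, hs⟩

end Hyp

/-- admissible pairs for the center `C` -/
structure AP {P : Type} (G : Geo P) (H : Set P) (C a a' : P) : Prop where
  h1 : a ∉ H
  h2 : a ≠ C
  h3 : a' ∉ H
  h4 : a' ≠ C
  h5 : a' ∈ G.ln C a

namespace AP

variable {P : Type} {G : Geo P} {H : Set P} {C a a' b b' c c' : P}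

theorem refl (h1 : a ∉ H) (h2 : a ≠ C) : AP G H C a a := ⟨h1, h2, h1, h2, G.ln_right _ _⟩

theorem lnC (h : AP G H C a a') : G.ln C a' = G.ln C a := by
  exact G.ln_eq (G.ln_left _ _) h.h5 h.h4.symm

theorem ne (h : AP G H C a a') (h' : AP G H C b b') (hb : b ∉ G.ln C a) : a' ≠ b' := by
  intro e
  apply hb
  rw [← h.lnC, e, h'.lnC]
  exact G.ln_right _ _

theorem ne0 (hb : b ∉ G.ln C a) : a ≠ b := by
  rintro rfl
  exact hb (G.ln_right _ _)

theorem symm_ncol (h2 : a ≠ C) (hb : b ∉ G.ln C a) : a ∉ G.ln C b :=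
  G.ncol_swap h2.symm hb

end AP

namespace Hyp

variable {P : Type} {G : Geo P} {H : Set P} {C a a' b b' b'' c c' : P} (Y : Hyp G H)

include Y

theorem uniq (ha : AP G H C a a') (hb : AP G H C b b') (hb'' : AP G H C b b'')
    (hba : b ∉ G.ln C a) (h : Y.dir a b ∈ G.ln a' b') (h' : Y.dir a b ∈ G.ln a' b'') :
    b' = b'' := by
  by_contra hne
  have hab : a ≠ b := AP.ne0 hba
  have h1 : G.ln b' b'' = G.ln C b := G.ln_eq hb.h5 hb''.h5 hne
  have h2 : a' ≠ Y.dir a b := Y.ne_dir ha.h3 hab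
  have h3 : G.ln a' (Y.dir a b) = G.ln a' b' := G.ln_eq (G.ln_left _ _) h h2
  have h4 : G.ln a' (Y.dir a b) = G.ln a' b'' := G.ln_eq (G.ln_left _ _) h' h2
  have h5 : G.ln b' b'' = G.ln a' (Y.dir a b) :=
    G.ln_eq (h3 ▸ G.ln_right _ _) (h4 ▸ G.ln_right _ _) hne
  apply hba
  have h6 : a' ∈ G.ln C b := by
    rw [← h1, h5]; exact G.ln_left _ _
  rw [← ha.lnC, G.ln_eq (G.ln_left C b) h6 ha.h4.symm]
  exact G.ln_right _ _

theorem exist (A : PGeo G) (ha : AP G H C a a') (hb : b ∉ H) (hbC : b ≠ C)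
    (hba : b ∉ G.ln C a) : ∃ b', AP G H C b b' ∧ Y.dir a b ∈ G.ln a' b' := by
  have hab : a ≠ b := AP.ne0 hba
  have h2 : a' ≠ Y.dir a b := Y.ne_dir ha.h3 hab
  have e1 : a' ∈ G.pl C a b := G.pl_ln (G.pl_1 _ _ _) (G.pl_2 _ _ _) ha.h5
  have e2 : Y.dir a b ∈ G.pl C a b := G.pl_ln (G.pl_2 _ _ _) (G.pl_3 _ _ _) (Y.dir_ln hab)
  obtain ⟨b', h3, h4⟩ := A.meet' e1 e2 (G.pl_1 C a b) (G.pl_3 C a b) h2 hbC.symm
  have haC : a ∉ G.ln C b := AP.symm_ncol ha.h2 hba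
  -- `dir a b` is not on the line `C b`
  have h5 : Y.dir a b ∉ G.ln C b := by
    intro h
    apply haC
    have e3 : G.ln b (Y.dir a b) = G.ln C b :=
      G.ln_eq (G.ln_right _ _) h (Y.ne_dir hb hab)
    rw [← e3, Y.ln_dir' hb hab]
    exact G.ln_left _ _
  have h6 : b' ∉ H := by
    intro h
    have : b' = Y.dir a b := Y.uniqH ha.h3 h3 h (G.ln_right _ _) (Y.dir_mem hab)
    exact h5 (this ▸ h4)
  have h7 : b' ≠ C := by
    rintro rfl
    -- then `dir a b` is on `C a`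
    have e3 : G.ln b' a' = G.ln a' (Y.dir a b) := by
      rw [G.ln_comm]
      exact G.ln_eq (G.ln_left _ _) h3 ha.h4
    have e4 : Y.dir a b ∈ G.ln b' a := by
      rw [← ha.lnC, e3]; exact G.ln_right _ _
    have e5 : G.ln a (Y.dir a b) = G.ln b' a :=
      G.ln_eq (G.ln_right _ _) e4 (Y.ne_dir ha.h1 hab)
    rw [Y.ln_dir ha.h1 hab] at e5
    exact hba (e5 ▸ G.ln_right _ _)
  refine ⟨b', ⟨hb, hbC, h6, h7, h4⟩, ?_⟩
  have h8 : a' ≠ b' := by
    rintro rfl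
    apply hba
    have : G.ln C a' = G.ln C b := G.ln_eq (G.ln_left _ _) h4 h7.symm
    rw [← ha.lnC, this]
    exact G.ln_right _ _
  rw [G.ln_eq (G.ln_left _ _) h3 h8]
  exact G.ln_right _ _

/-- Desargues, non-coplanar case -/
theorem des3 (A : PGeo G) (ha : AP G H C a a') (hb : AP G H C b b') (hc : AP G H C c c')
    (hba : b ∉ G.ln C a) (hcab : c ∉ G.pl C a b) (h1 : Y.dir a b ∈ G.ln a' b')
    (h2 : Y.dir b c ∈ G.ln b' c') : Y.dir a c ∈ G.ln a' c' := by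
  have hab : a ≠ b := AP.ne0 hba
  have hca : c ∉ G.ln C a := fun h => hcab (G.pl_ln (G.pl_1 _ _ _) (G.pl_2 _ _ _) h)
  have hcb : c ∉ G.ln C b := fun h => hcab (G.pl_ln (G.pl_1 _ _ _) (G.pl_3 _ _ _) h)
  have hcab' : c ∉ G.ln a b := fun h => hcab (G.pl_ln (G.pl_2 _ _ _) (G.pl_3 _ _ _) h)
  have hac : a ≠ c := AP.ne0 hca
  have hbc : b ≠ c := AP.ne0 hcb
  by_cases haa : a = a'
  · subst haa
    have hbb : b = b' := Y.uniq ha (AP.refl hb.h1 hb.h2) hb hba (Y.dir_ln hab) h1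
    subst hbb
    have hcc : c = c' := Y.uniq hb (AP.refl hc.h1 hc.h2) hc hcb (Y.dir_ln hbc) h2
    subst hcc
    exact Y.dir_ln hac
  have hac' : a' ≠ c' := ha.ne hc hca
  have hab' : a' ≠ b' := ha.ne hb hba
  have hbc' : b' ≠ c' := hb.ne hc hcb
  obtain ⟨x, hx1, hx2⟩ := A.meet' (G.pl_2 C a c) (G.pl_3 C a c)
    (G.pl_ln (G.pl_1 C a c) (G.pl_2 C a c) ha.h5) (G.pl_ln (G.pl_1 C a c) (G.pl_3 C a c) hc.h5)
    hac hac'
  have hDD : Y.dir a b ≠ Y.dir b c := by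
    intro h
    apply hcab'
    have e1 : G.ln b (Y.dir a b) = G.ln a b := Y.ln_dir' hb.h1 hab
    have e2 : G.ln b (Y.dir b c) = G.ln b c := Y.ln_dir hb.h1 hbc
    rw [← e1, h, e2]
    exact G.ln_right _ _
  have hx : x ∈ G.ln (Y.dir a b) (Y.dir b c) := by
    by_contra hxn
    have p1 : G.pl (Y.dir a b) (Y.dir b c) x = G.pl a b c :=
      G.pl_eq (G.pl_ln (G.pl_1 _ _ _) (G.pl_2 _ _ _) (Y.dir_ln hab))
        (G.pl_ln (G.pl_2 _ _ _) (G.pl_3 _ _ _) (Y.dir_ln hbc))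
        (G.pl_ln (G.pl_1 _ _ _) (G.pl_3 _ _ _) hx1) hDD hxn
    have p2 : G.pl (Y.dir a b) (Y.dir b c) x = G.pl a' b' c' :=
      G.pl_eq (G.pl_ln (G.pl_1 _ _ _) (G.pl_2 _ _ _) h1)
        (G.pl_ln (G.pl_2 _ _ _) (G.pl_3 _ _ _) h2)
        (G.pl_ln (G.pl_1 _ _ _) (G.pl_3 _ _ _) hx2) hDD hxn
    have haP : a' ∈ G.pl a b c := by rw [← p1, p2]; exact G.pl_1 _ _ _
    have hCP : C ∈ G.pl a b c := by
      apply G.pl_ln (G.pl_1 a b c) haP
      rw [G.ln_eq (G.ln_right C a) ha.h5 haa]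
      exact G.ln_left _ _
    apply hcab
    rw [G.pl_eq hCP (G.pl_1 a b c) (G.pl_2 a b c) ha.h2.symm hba]
    exact G.pl_3 _ _ _
  have hxH : x ∈ H := Y.closed _ _ (Y.dir_mem hab) (Y.dir_mem hbc) hx
  rw [← Y.eq_dir ha.h1 hx1 hxH]
  exact hx2

omit Y in
theorem rsymm (Y : Hyp G H) (ha : a ∉ H) (hab : a ≠ b) (h : Y.dir a b ∈ G.ln a' b') :
    Y.dir b a ∈ G.ln b' a' := by
  rw [← Y.dir_comm ha hab, G.ln_comm]
  exact h

/-- Desargues -/
theorem des (A : PGeo G) (ha : AP G H C a a') (hb : AP G H C b b') (hc : AP G H C c c')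
    (hba : b ∉ G.ln C a) (hca : c ∉ G.ln C a) (hcb : c ∉ G.ln C b)
    (h1 : Y.dir a b ∈ G.ln a' b') (h2 : Y.dir b c ∈ G.ln b' c') : Y.dir a c ∈ G.ln a' c' := by
  by_cases hcop : c ∈ G.pl C a b
  swap
  · exact Y.des3 A ha hb hc hba hcop h1 h2
  obtain ⟨e, heH, he⟩ := Y.exists_aff A (G.pl_2 C a b) ha.h1
  have heC : e ≠ C := by rintro rfl; exact he (G.pl_1 _ _ _)
  have hea : e ∉ G.ln C a := fun h => he (G.pl_ln (G.pl_1 _ _ _) (G.pl_2 _ _ _) h)
  obtain ⟨e', hee, h3⟩ := Y.exist A ha heH heC hea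
  have hab : a ≠ b := AP.ne0 hba
  have hbc : b ≠ c := AP.ne0 hcb
  have hab2 : a ∉ G.ln C b := AP.symm_ncol ha.h2 hba
  have hbc2 : b ∉ G.ln C c := AP.symm_ncol hb.h2 hcb
  have q1 : G.pl C b a = G.pl C a b :=
    G.pl_eq (G.pl_1 _ _ _) (G.pl_3 _ _ _) (G.pl_2 _ _ _) hb.h2.symm hab2
  have q2 : G.pl C c b = G.pl C a b :=
    G.pl_eq (G.pl_1 _ _ _) hcop (G.pl_3 _ _ _) hc.h2.symm hbc2
  have q3 : G.pl C a c = G.pl C a b :=
    G.pl_eq (G.pl_1 _ _ _) (G.pl_2 _ _ _) hcop ha.h2.symm hca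
  have h4 : Y.dir b e ∈ G.ln b' e' :=
    Y.des3 A hb ha hee hab2 (by rw [q1]; exact he) (Y.rsymm ha.h1 hab h1) h3
  have h5 : Y.dir c e ∈ G.ln c' e' :=
    Y.des3 A hc hb hee hbc2 (by rw [q2]; exact he) (Y.rsymm hb.h1 hbc h2) h4
  have hce : c ≠ e := by rintro rfl; exact he hcop
  refine Y.des3 A ha hee hc hea ?_ h3 (Y.rsymm hc.h1 hce h5)
  intro h
  apply he
  rw [← q3, G.pl_eq (G.pl_1 C a e) (G.pl_2 C a e) h ha.h2.symm hca]
  exact G.pl_3 _ _ _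

/-- existence of the central collineation with center `C` and axis `H` -/
theorem central (A : PGeo G) (ha : AP G H C a a') :
    ∃ f : P → P, (∀ b, b ∉ H → b ≠ C → AP G H C b (f b)) ∧
      (∀ b c, b ∉ H → b ≠ C → c ∉ H → c ≠ C → c ∉ G.ln C b → Y.dir b c ∈ G.ln (f b) (f c)) ∧
      f a = a' := by
  classical
  have hch : ∀ b, ∃ b', (b ∉ H → b ≠ C → b ∉ G.ln C a →
      (AP G H C b b' ∧ Y.dir a b ∈ G.ln a' b')) := by
    intro b
    by_cases h : b ∉ H ∧ b ≠ C ∧ b ∉ G.ln C a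
    · obtain ⟨b', hb'⟩ := Y.exist A ha h.1 h.2.1 h.2.2
      exact ⟨b', fun _ _ _ => hb'⟩
    · exact ⟨b, fun h1 h2 h3 => absurd ⟨h1, h2, h3⟩ h⟩
  choose g hg using hch
  obtain ⟨u, huH, hu⟩ := Y.exists_aff A (G.pl_2 C a a) ha.h1
  have huC : u ≠ C := by rintro rfl; exact hu (G.pl_1 _ _ _)
  have hua : u ∉ G.ln C a := fun h => hu (G.pl_ln (G.pl_1 _ _ _) (G.pl_2 _ _ _) h)
  obtain ⟨hgu1, hgu2⟩ := hg u huH huC hua
  have hch2 : ∀ b, ∃ b', (b ∉ H → b ≠ C → b ∉ G.ln C u →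
      (AP G H C b b' ∧ Y.dir u b ∈ G.ln (g u) b')) := by
    intro b
    by_cases h : b ∉ H ∧ b ≠ C ∧ b ∉ G.ln C u
    · obtain ⟨b', hb'⟩ := Y.exist A hgu1 h.1 h.2.1 h.2.2
      exact ⟨b', fun _ _ _ => hb'⟩
    · exact ⟨b, fun h1 h2 h3 => absurd ⟨h1, h2, h3⟩ h⟩
  choose g2 hg2 using hch2
  have hu2 : ∀ b, b ≠ C → b ∈ G.ln C a → b ∉ G.ln C u := by
    intro b hbC hb h
    apply hua
    rw [← G.ln_eq (G.ln_left C a) hb hbC.symm, G.ln_eq (G.ln_left C u) h hbC.symm]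
    exact G.ln_right _ _
  let f : P → P := fun b => if b ∈ G.ln C a then g2 b else g b
  have hf1 : ∀ b, b ∈ G.ln C a → f b = g2 b := fun b hb => if_pos hb
  have hf2 : ∀ b, b ∉ G.ln C a → f b = g b := fun b hb => if_neg hb
  have P1 : ∀ b, b ∉ H → b ≠ C → AP G H C b (f b) := by
    intro b hbH hbC
    by_cases hb : b ∈ G.ln C a
    · rw [hf1 b hb]; exact (hg2 b hbH hbC (hu2 b hbC hb)).1
    · rw [hf2 b hb]; exact (hg b hbH hbC hb).1
  -- both points outside of the line `C a`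
  have P2 : ∀ b c, b ∉ H → b ≠ C → c ∉ H → c ≠ C → b ∉ G.ln C a → c ∉ G.ln C a →
      c ∉ G.ln C b → Y.dir b c ∈ G.ln (f b) (f c) := by
    intro b c hbH hbC hcH hcC hba hca hcb
    rw [hf2 b hba, hf2 c hca]
    have hab2 : a ∉ G.ln C b := AP.symm_ncol ha.h2 hba
    exact Y.des A (hg b hbH hbC hba).1 ha (hg c hcH hcC hca).1 hab2 hcb hca
      (Y.rsymm ha.h1 (AP.ne0 hba) (hg b hbH hbC hba).2) (hg c hcH hcC hca).2
  have P3 : ∀ b c, b ∉ H → b ≠ C → c ∉ H → c ≠ C → b ∈ G.ln C a → c ∉ G.ln C a →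
      Y.dir b c ∈ G.ln (f b) (f c) := by
    -- first: `c` not on `C u`
    have P30 : ∀ b c, b ∉ H → b ≠ C → c ∉ H → c ≠ C → b ∈ G.ln C a → c ∉ G.ln C a →
        c ∉ G.ln C u → Y.dir b c ∈ G.ln (f b) (f c) := by
      intro b c hbH hbC hcH hcC hba hca hcu
      have hbu := hu2 b hbC hba
      have hub : u ∉ G.ln C b := AP.symm_ncol huC hbu
      have e1 : Y.dir u b ∈ G.ln (f u) (f b) := by
        rw [hf2 u hua, hf1 b hba]
        exact (hg2 b hbH hbC hbu).2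
      have e2 := P2 u c huH huC hcH hcC hua hca hcu
      have hcb : c ∉ G.ln C b := by
        rw [G.ln_eq (G.ln_left C a) hba hbC.symm]; exact hca
      exact Y.des A (P1 b hbH hbC) (P1 u huH huC) (P1 c hcH hcC) hub hcb hcu
        (Y.rsymm huH (AP.ne0 hbu) e1) e2
    intro b c hbH hbC hcH hcC hba hca
    by_cases hcu : c ∈ G.ln C u
    swap
    · exact P30 b c hbH hbC hcH hcC hba hca hcu
    obtain ⟨t, htH, ht⟩ := Y.exists_aff A (G.pl_2 C a u) ha.h1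
    have htC : t ≠ C := by rintro rfl; exact ht (G.pl_1 _ _ _)
    have hta : t ∉ G.ln C a := fun h => ht (G.pl_ln (G.pl_1 _ _ _) (G.pl_2 _ _ _) h)
    have htu : t ∉ G.ln C u := fun h => ht (G.pl_ln (G.pl_1 _ _ _) (G.pl_3 _ _ _) h)
    have hcC2 : G.ln C c = G.ln C u := G.ln_eq (G.ln_left _ _) hcu hcC.symm
    have hbC2 : G.ln C b = G.ln C a := G.ln_eq (G.ln_left _ _) hba hbC.symm
    have htc : t ∉ G.ln C c := by rw [hcC2]; exact htu
    have hct : c ∉ G.ln C t := AP.symm_ncol hcC htc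
    have e1 := P30 b t hbH hbC htH htC hba hta htu
    have e2 := P2 t c htH htC hcH hcC hta hca hct
    exact Y.des A (P1 b hbH hbC) (P1 t htH htC) (P1 c hcH hcC) (by rw [hbC2]; exact hta)
      (by rw [hbC2]; exact hca) hct e1 e2
  refine ⟨f, P1, ?_, ?_⟩
  · intro b c hbH hbC hcH hcC hcb
    by_cases hba : b ∈ G.ln C a
    · have hca : c ∉ G.ln C a := by
        rw [← G.ln_eq (G.ln_left C a) hba hbC.symm]; exact hcb
      exact P3 b c hbH hbC hcH hcC hba hca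
    · by_cases hca : c ∈ G.ln C a
      · exact Y.rsymm hcH (AP.ne0 hcb).symm (P3 c b hcH hcC hbH hbC hca hba)
      · exact P2 b c hbH hbC hcH hcC hba hca hcb
  · have hau : a ∉ G.ln C u := AP.symm_ncol ha.h2 hua
    have e1 := P3 a u ha.h1 ha.h2 huH huC (G.ln_right _ _) hua
    have e2 : Y.dir a u ∈ G.ln a' (f u) := by
      rw [hf2 u hua]; exact hgu2
    exact Y.uniq (P1 u huH huC) (P1 a ha.h1 ha.h2) ha hau
      (Y.rsymm ha.h1 (AP.ne0 hua) e1) (Y.rsymm ha.h1 (AP.ne0 hua) e2)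

end Hyp

end Pool.Agent.H39.PMD
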